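import Mathlib

/-!
# Regular sets relative to a component `K` of a preorder, linked pairs
-/

namespace MagRad

universe w

variable {P : Type w} [Preorder P]

def nega (K b : Set P) : Set P := {p | p ∈ K ∧ ∀ q ≤ p, q ∉ b}

def supr (K : Set P) (𝒟 : Set (Set P)) : Set P :=
  {p | p ∈ K ∧ ∀ q ≤ p, ∃ r ≤ q, ∃ D ∈ 𝒟, r ∈ D}

structure IsReg (K b : Set P) : Prop where
  sub : b ⊆ K
  down : ∀ p ∈ b, ∀ q ≤ p, q ∈ b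
  dense : ∀ p ∈ K, (∀ q ≤ p, ∃ r ≤ q, r ∈ b) → p ∈ b

inductive GenK (K : Set P) (𝒢 : Set (Set P)) : Set P → Prop
  | base (D : Set P) : D ∈ 𝒢 → GenK K 𝒢 D
  | neg (D : Set P) : GenK K 𝒢 D → GenK K 𝒢 (nega K D)
  | sup (𝒟 : Set (Set P)) : (∀ D ∈ 𝒟, GenK K 𝒢 D) → GenK K 𝒢 (supr K 𝒟)

/-- `K` is closed under stronger conditions. -/
def Comp (K : Set P) : Prop := ∀ p ∈ K, ∀ q ≤ p, q ∈ K

/-- a complete family -/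
structure IsFam (K : Set P) (ℬ : Set (Set P)) : Prop where
  comp : Comp K
  reg : ∀ b ∈ ℬ, IsReg K b
  neg : ∀ b ∈ ℬ, nega K b ∈ ℬ
  sup : ∀ 𝒟 ⊆ ℬ, supr K 𝒟 ∈ ℬ

/-- linked pairs -/
def Lk (ℬ : Set (Set P)) (p p' : P) : Prop := ∀ b ∈ ℬ, p ∈ b → ∃ q ≤ p', q ∈ b

variable {K : Set P} {ℬ : Set (Set P)}

theorem nega_reg (hK : Comp K) {b : Set P} (hb : ∀ p ∈ b, ∀ q ≤ p, q ∈ b) :
    IsReg K (nega K b) := by
  refine ⟨fun p hp => hp.1, fun p hp q hq => ⟨hK p hp.1 q hq, fun r hr => hp.2 r (hr.trans hq)⟩,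
    fun p hp h => ⟨hp, fun q hq hqb => ?_⟩⟩
  obtain ⟨r, hr, hrb⟩ := h q hq
  exact hrb.2 r le_rfl (hb q hqb r hr)

theorem supr_reg (hK : Comp K) (𝒟 : Set (Set P)) : IsReg K (supr K 𝒟) := by
  refine ⟨fun p hp => hp.1, fun p hp q hq => ⟨hK p hp.1 q hq, fun r hr => hp.2 r (hr.trans hq)⟩,
    fun p hp h => ⟨hp, fun q hq => ?_⟩⟩
  obtain ⟨r, hr, hrb⟩ := h q hq
  obtain ⟨s, hs, D, hD, hsD⟩ := hrb.2 r le_rfl
  exact ⟨s, hs.trans hr, D, hD, hsD⟩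

theorem genK_fam (hK : Comp K) {𝒢 : Set (Set P)} (h𝒢 : ∀ D ∈ 𝒢, IsReg K D) :
    IsFam K {D | GenK K 𝒢 D} := by
  refine ⟨hK, fun b hb => ?_, fun b hb => GenK.neg b hb, fun 𝒟 h𝒟 => GenK.sup 𝒟 fun D hD => h𝒟 hD⟩
  induction hb with
  | base D hD => exact h𝒢 D hD
  | neg D _ ih => exact nega_reg hK ih.down
  | sup 𝒟 _ _ => exact supr_reg hK 𝒟

theorem mem_supr_of_mem {𝒟 : Set (Set P)} {D : Set P} (hD : D ∈ 𝒟)
    (hreg : IsReg K D) {p : P} (hp : p ∈ D) : p ∈ supr K 𝒟 :=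
  ⟨hreg.sub hp, fun q hq => ⟨q, le_rfl, D, hD, hreg.down p hp q hq⟩⟩

theorem Lk.refl (p : P) : Lk ℬ p p := fun _ _ h => ⟨p, le_rfl, h⟩

theorem Lk.symm (h : IsFam K ℬ) {p p' : P} (hp : p ∈ K) (hL : Lk ℬ p p') : Lk ℬ p' p := by
  intro b hb hp'
  by_contra hcon
  push Not at hcon
  have : p ∈ nega K b := ⟨hp, hcon⟩
  obtain ⟨q, hq, hqn⟩ := hL _ (h.neg b hb) this
  exact hqn.2 q le_rfl ((h.reg b hb).down p' hp' q hq)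

theorem Lk.mono (h : IsFam K ℬ) {p p' q q' : P} (hq : q ≤ p) (hq' : q' ≤ p')
    (hL : Lk ℬ q q') : Lk ℬ p p' := by
  intro b hb hp
  obtain ⟨r, hr, hrb⟩ := hL b hb ((h.reg b hb).down p hp q hq)
  exact ⟨r, hr.trans hq', hrb⟩

theorem Lk.lift (h : IsFam K ℬ) {p p' : P} (hp : p ∈ K) (hp' : p' ∈ K) (hL : Lk ℬ p p')
    {D : Set P} (hD : ∀ q ≤ p, ∃ r ≤ q, r ∈ D) : ∃ q ≤ p, q ∈ D ∧ Lk ℬ q p' := by
  by_contra hcon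
  push Not at hcon
  have key : ∀ q ≤ p, q ∈ D → ∃ b ∈ ℬ, q ∈ b ∧ p' ∈ nega K b := by
    intro q hq hqD
    have := hcon q hq hqD
    unfold Lk at this
    push Not at this
    obtain ⟨b, hb, hqb, hn⟩ := this
    exact ⟨b, hb, hqb, hp', hn⟩
  set 𝒟 : Set (Set P) := {b | b ∈ ℬ ∧ p' ∈ nega K b} with h𝒟
  have hs : supr K 𝒟 ∈ ℬ := h.sup 𝒟 fun b hb => hb.1
  have hps : p ∈ supr K 𝒟 := by
    refine ⟨hp, fun q hq => ?_⟩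
    obtain ⟨r, hr, hrD⟩ := hD q hq
    obtain ⟨b, hb, hrb, hn⟩ := key r (hr.trans hq) hrD
    exact ⟨r, hr, b, ⟨hb, hn⟩, hrb⟩
  obtain ⟨q', hq', hq's⟩ := hL _ hs hps
  obtain ⟨r, hr, b, hb, hrb⟩ := hq's.2 q' le_rfl
  exact hb.2.2 r (hr.trans hq') hrb

theorem Lk.lift' (h : IsFam K ℬ) {p p' : P} (hp : p ∈ K) (hp' : p' ∈ K) (hL : Lk ℬ p p')
    {D : Set P} (hD : ∀ q ≤ p', ∃ r ≤ q, r ∈ D) : ∃ q ≤ p', q ∈ D ∧ Lk ℬ p q := by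
  obtain ⟨q, hq, hqD, hq'⟩ := Lk.lift h hp' hp (Lk.symm h hp hL) hD
  exact ⟨q, hq, hqD, Lk.symm h (h.comp p' hp' q hq) hq'⟩

/-- not linked pairs are separated -/
theorem not_lk {p p' : P} (hp' : p' ∈ K) (hL : ¬ Lk ℬ p p') :
    ∃ b ∈ ℬ, p ∈ b ∧ p' ∈ nega K b := by
  unfold Lk at hL
  push Not at hL
  obtain ⟨b, hb, h1, h2⟩ := hL
  exact ⟨b, hb, h1, hp', h2⟩

theorem not_lk_of {p p' : P} {b : Set P} (hb : b ∈ ℬ) (hp : p ∈ b) (hp' : p' ∈ nega K b) :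
    ¬ Lk ℬ p p' := by
  intro hL
  obtain ⟨q, hq, hqb⟩ := hL b hb hp
  exact hp'.2 q hq hqb

theorem le_nega_nega {b : Set P} (hb : IsReg K b) {p : P} (hp : p ∈ b) :
    p ∈ nega K (nega K b) :=
  ⟨hb.sub hp, fun q hq hn => hn.2 q le_rfl (hb.down p hp q hq)⟩

theorem nega_nega_le {b : Set P} (hb : IsReg K b) {p : P}
    (hp : p ∈ nega K (nega K b)) (hK : Comp K) : p ∈ b := by
  refine hb.dense p hp.1 fun q hq => ?_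
  by_contra hcon
  push Not at hcon
  exact hp.2 q hq ⟨hK p hp.1 q hq, hcon⟩

/-- The criterion. -/
theorem criterion (h : IsFam K ℬ) {X : Set P} (hX : IsReg K X) {q : P}
    (hno : ∀ p p', p ≤ q → p' ≤ q → Lk ℬ p p' → p ∈ X → p' ∉ nega K X) (hq : q ∈ K) :
    ∃ b ∈ ℬ, ∀ p ≤ q, p ∈ b ↔ p ∈ X := by
  set 𝒞 : Set (Set P) := {c | c ∈ ℬ ∧ ∀ p ≤ q, p ∈ X → p ∈ c} with h𝒞
  set 𝒟 : Set (Set P) := {d | ∃ c ∈ 𝒞, d = nega K c} with h𝒟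
  have h𝒟ℬ : 𝒟 ⊆ ℬ := by
    rintro d ⟨c, hc, rfl⟩
    exact h.neg c hc.1
  refine ⟨nega K (supr K 𝒟), h.neg _ (h.sup _ h𝒟ℬ), fun p hp => ⟨fun hpb => ?_, fun hpX => ?_⟩⟩
  · -- p in b implies p in X
    refine hX.dense p (h.comp q hq p hp) fun p1 hp1 => ?_
    by_contra hcon
    push Not at hcon
    have hp1n : p1 ∈ nega K X := ⟨h.comp q hq p1 (hp1.trans hp), hcon⟩
    set ℰ : Set (Set P) := {c | c ∈ ℬ ∧ p1 ∈ nega K c} with hℰ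
    have hs : supr K ℰ ∈ ℬ := h.sup ℰ fun c hc => hc.1
    have hsC : supr K ℰ ∈ 𝒞 := by
      refine ⟨hs, fun r hr hrX => ?_⟩
      have hnl : ¬ Lk ℬ r p1 := fun hL => hno r p1 hr (hp1.trans hp) hL hrX hp1n
      obtain ⟨c, hc, hrc, hn⟩ := not_lk (K := K) hp1n.1 hnl
      exact mem_supr_of_mem (K := K) (𝒟 := ℰ) (D := c) (show c ∈ ℰ from ⟨hc, hn⟩) (h.reg c hc) hrc
    -- p1 belongs to the negation of the sup, hence p1 in supr ℰ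
    have hp1s : p1 ∈ supr K ℰ := by
      apply nega_nega_le (h.reg _ hs) ?_ h.comp
      refine ⟨hp1n.1, fun r hr hrn => ?_⟩
      have : r ∈ supr K 𝒟 :=
        mem_supr_of_mem (K := K) (𝒟 := 𝒟) (D := nega K (supr K ℰ))
          (show nega K (supr K ℰ) ∈ 𝒟 from ⟨_, hsC, rfl⟩)
          (nega_reg h.comp (h.reg _ hs).down) hrn
      exact hpb.2 r (hr.trans hp1) this
    obtain ⟨r, hr, c, hc, hrc⟩ := hp1s.2 p1 le_rfl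
    exact hc.2.2 r hr hrc
  · refine ⟨h.comp q hq p hp, fun r hr hrs => ?_⟩
    obtain ⟨s, hs, d, ⟨c, hc, rfl⟩, hsd⟩ := hrs.2 r le_rfl
    exact hsd.2 s le_rfl (hc.2 s (hs.trans (hr.trans hp)) (hX.down p hpX s (hs.trans hr)))

/-- If all generators agree below `q` with elements of `ℬ`, all generated sets do. -/
theorem gen_trace (h : IsFam K ℬ) {𝒢 : Set (Set P)} {q : P}
    (hgen : ∀ D ∈ 𝒢, ∃ b ∈ ℬ, ∀ p ≤ q, p ∈ b ↔ p ∈ D) {X : Set P}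
    (hX : GenK K 𝒢 X) : ∃ b ∈ ℬ, ∀ p ≤ q, p ∈ b ↔ p ∈ X := by
  induction hX with
  | base D hD => exact hgen D hD
  | neg D _ ih =>
    obtain ⟨b, hb, hbD⟩ := ih
    refine ⟨nega K b, h.neg b hb, fun p hp => ?_⟩
    constructor
    · rintro ⟨h1, h2⟩
      exact ⟨h1, fun r hr hrD => h2 r hr ((hbD r (hr.trans hp)).2 hrD)⟩
    · rintro ⟨h1, h2⟩
      exact ⟨h1, fun r hr hrD => h2 r hr ((hbD r (hr.trans hp)).1 hrD)⟩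
  | sup 𝒟 _ ih =>
    refine ⟨supr K {b | b ∈ ℬ ∧ ∃ D ∈ 𝒟, ∀ p ≤ q, p ∈ b ↔ p ∈ D}, h.sup _ fun b hb => hb.1,
      fun p hp => ?_⟩
    constructor
    · rintro ⟨h1, h2⟩
      refine ⟨h1, fun r hr => ?_⟩
      obtain ⟨s, hs, b, ⟨hb, D, hD, hbD⟩, hsb⟩ := h2 r hr
      exact ⟨s, hs, D, hD, (hbD s (hs.trans (hr.trans hp))).1 hsb⟩
    · rintro ⟨h1, h2⟩
      refine ⟨h1, fun r hr => ?_⟩
      obtain ⟨s, hs, D, hD, hsD⟩ := h2 r hr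
      obtain ⟨b, hb, hbD⟩ := ih D hD
      exact ⟨s, hs, b, ⟨hb, D, hD, hbD⟩, (hbD s (hs.trans (hr.trans hp))).2 hsD⟩

end MagRad
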