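import Pool.Agent.MagRad.Meas
import Pool.Agent.MagRad.Forc

/-!
# Operations on conditions
-/

namespace MagRad

universe u

open Set

variable {κ : Ordinal.{u}}
variable {o : Ordinal.{u} → Ordinal.{u}} {U : Ordinal.{u} → Ordinal.{u} → Ultrafilter Ordinal.{u}}

theorem Cnd.le_def {p q : Cnd o U} : p ≤ q ↔ q.dom ⊆ p.dom ∧ ∀ α ∈ p.dom, ∃ β ∈ q.dom, α ≤ β ∧
    (∀ γ ∈ q.dom, α ≤ γ → β ≤ γ) ∧ p.S α ⊆ q.S β ∧ (α = β ∨ α ∈ q.S β) := Iff.rfl

open Classical in
/-- general constructor -/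
noncomputable def mkC (H : IsCoherent κ o U) (D : Finset Ordinal.{u})
    (f : Ordinal.{u} → Set Ordinal.{u}) (hf : ∀ α ∈ D, Big o U α (f α)) : Cnd o U where
  dom := D
  S α := if α ∈ D then f α ∩ Iio α else ∅
  sub α := by
    by_cases h : α ∈ D
    · rw [if_pos h]; exact inter_subset_right
    · rw [if_neg h]; exact empty_subset _
  off α h := by rw [if_neg h]
  mem α h β hβ := by
    rw [if_pos h]
    exact um_inter (hf α h β hβ) ((H.normal α β hβ).conc)

theorem mkC_dom (H : IsCoherent κ o U) (D : Finset Ordinal.{u})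
    (f : Ordinal.{u} → Set Ordinal.{u}) (hf : ∀ α ∈ D, Big o U α (f α)) :
    (mkC H D f hf).dom = D := rfl

theorem mkC_S (H : IsCoherent κ o U) (D : Finset Ordinal.{u})
    (f : Ordinal.{u} → Set Ordinal.{u}) (hf : ∀ α ∈ D, Big o U α (f α)) {α : Ordinal.{u}}
    (hα : α ∈ D) : (mkC H D f hf).S α = f α ∩ Iio α := if_pos hα

theorem Cnd.big (p : Cnd o U) {α : Ordinal.{u}} (hα : α ∈ p.dom) : Big o U α (p.S α) :=
  p.mem α hα

theorem S_inter (p : Cnd o U) (α : Ordinal.{u}) : p.S α ∩ Iio α = p.S α :=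
  inter_eq_left.2 (p.sub α)

open Classical in
/-- restriction to a set of points -/
noncomputable def rst (p : Cnd o U) (X : Set Ordinal.{u}) : Cnd o U where
  dom := p.dom.filter (· ∈ X)
  S α := if α ∈ X then p.S α else ∅
  sub α := by
    by_cases h : α ∈ X
    · rw [if_pos h]; exact p.sub α
    · rw [if_neg h]; exact empty_subset _
  off α h := by
    by_cases h' : α ∈ X
    · rw [if_pos h']
      refine p.off α fun h2 => h ?_
      exact Finset.mem_filter.2 ⟨h2, h'⟩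
    · rw [if_neg h']
  mem α h β hβ := by
    have := Finset.mem_filter.1 h
    rw [if_pos this.2]
    exact p.mem α this.1 β hβ

theorem mem_rst {p : Cnd o U} {X : Set Ordinal.{u}} {α : Ordinal.{u}} :
    α ∈ (rst p X).dom ↔ α ∈ p.dom ∧ α ∈ X := by
  unfold rst
  simp only [Finset.mem_filter]

theorem rst_S {p : Cnd o U} {X : Set Ordinal.{u}} {α : Ordinal.{u}} (h : α ∈ X) :
    (rst p X).S α = p.S α := by
  unfold rst
  simp only [if_pos h]

/-- two restrictions agree if the sets have the same points in `dom p` -/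
theorem rst_congr {p : Cnd o U} {X Y : Set Ordinal.{u}} (h : ∀ α ∈ p.dom, α ∈ X ↔ α ∈ Y) :
    rst p X = rst p Y := by
  apply Cnd.ext'
  · ext α
    rw [mem_rst, mem_rst]
    exact ⟨fun ⟨a, b⟩ => ⟨a, (h α a).1 b⟩, fun ⟨a, b⟩ => ⟨a, (h α a).2 b⟩⟩
  · intro α hα
    rw [mem_rst] at hα
    rw [rst_S hα.2, rst_S ((h α hα.1).1 hα.2)]

theorem rst_rst {p : Cnd o U} {X Y : Set Ordinal.{u}} : rst (rst p X) Y = rst p (X ∩ Y) := by
  apply Cnd.ext'
  · ext α
    rw [mem_rst, mem_rst, mem_rst]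
    exact ⟨fun ⟨⟨a, b⟩, c⟩ => ⟨a, b, c⟩, fun ⟨a, b, c⟩ => ⟨⟨a, b⟩, c⟩⟩
  · intro α hα
    rw [mem_rst, mem_rst] at hα
    rw [rst_S hα.2, rst_S hα.1.2, rst_S (show α ∈ X ∩ Y from ⟨hα.1.2, hα.2⟩)]

theorem rst_self {p : Cnd o U} {X : Set Ordinal.{u}} (h : ∀ α ∈ p.dom, α ∈ X) : rst p X = p := by
  apply Cnd.ext'
  · ext α
    rw [mem_rst]
    exact ⟨fun h => h.1, fun a => ⟨a, h α a⟩⟩
  · intro α hα
    rw [mem_rst] at hα
    rw [rst_S hα.2]

/-- add the top point `θ` with the set `A` -/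
noncomputable def cat (H : IsCoherent κ o U) (θ : Ordinal.{u}) (w : Cnd o U)
    (A : Set Ordinal.{u}) (hA : Big o U θ A) : Cnd o U := by
  classical
  exact mkC H (insert θ w.dom) (fun α => if α = θ then A else w.S α) (by
    intro α hα
    by_cases h : α = θ
    · subst h
      simpa using hA
    · simp only [if_neg h]
      exact w.big ((Finset.mem_insert.1 hα).resolve_left h))

variable {H : IsCoherent κ o U} {θ : Ordinal.{u}} {w : Cnd o U} {A : Set Ordinal.{u}}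
  {hA : Big o U θ A}

theorem mem_cat {α : Ordinal.{u}} : α ∈ (cat H θ w A hA).dom ↔ α = θ ∨ α ∈ w.dom := by
  unfold cat
  simp only [mkC_dom, Finset.mem_insert]

theorem cat_S_top : (cat H θ w A hA).S θ = A ∩ Iio θ := by
  classical
  unfold cat
  rw [mkC_S _ _ _ _ (Finset.mem_insert_self _ _)]
  simp

theorem cat_S {α : Ordinal.{u}} (h : α ≠ θ) : (cat H θ w A hA).S α = w.S α := by
  classical
  by_cases hα : α ∈ w.dom
  · unfold cat
    rw [mkC_S _ _ _ _ (Finset.mem_insert_of_mem hα)]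
    simp only [if_neg h]
    exact S_inter w α
  · rw [w.off α hα, Cnd.off]
    rw [mem_cat]
    tauto

theorem Below.mono {z : Ordinal.{u}} {w w' : Cnd o U} (h : w' ≤ w) (hw : Below z w) :
    Below z w' := by
  intro α hα
  obtain ⟨β, hβ, hαβ, _⟩ := h.2 α hα
  exact lt_of_le_of_lt hαβ (hw β hβ)

theorem le_bound {z : Ordinal.{u}} {w w' : Cnd o U} (h : w' ≤ w) (hw : ∀ α ∈ w.dom, α ≤ z) :
    ∀ α ∈ w'.dom, α ≤ z := by
  intro α hα
  obtain ⟨β, hβ, hαβ, _⟩ := h.2 α hα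
  exact hαβ.trans (hw β hβ)

/-- monotonicity of `cat` -/
theorem cat_le {w' : Cnd o U} {A' : Set Ordinal.{u}} {hA' : Big o U θ A'} (hw : w' ≤ w)
    (hb : Below θ w) (hAA : A' ⊆ A) : cat H θ w' A' hA' ≤ cat H θ w A hA := by
  have hb' : Below θ w' := hb.mono hw
  refine ⟨?_, ?_⟩
  · intro α hα
    rw [mem_cat] at hα ⊢
    exact hα.imp id fun h => hw.1 h
  · intro α hα
    rw [mem_cat] at hα
    rcases hα with rfl | hα
    · refine ⟨α, mem_cat.2 (Or.inl rfl), le_rfl, fun γ _ h => h, ?_, Or.inl rfl⟩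
      rw [cat_S_top, cat_S_top]
      exact inter_subset_inter_left _ hAA
    · obtain ⟨β, hβ, hαβ, hmin, hS, hor⟩ := hw.2 α hα
      refine ⟨β, mem_cat.2 (Or.inr hβ), hαβ, ?_, ?_, ?_⟩
      · intro γ hγ hαγ
        rw [mem_cat] at hγ
        rcases hγ with rfl | hγ
        · exact (hb β hβ).le
        · exact hmin γ hγ hαγ
      · rw [cat_S (hb' α hα).ne, cat_S (hb β hβ).ne]
        exact hS
      · rw [cat_S (hb β hβ).ne]
        exact hor

/-- the component of conditions with last point `θ` -/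
def TopC (o : Ordinal.{u} → Ordinal.{u}) (U : Ordinal.{u} → Ordinal.{u} → Ultrafilter Ordinal.{u})
    (θ : Ordinal.{u}) : Set (Cnd o U) := {p | θ ∈ p.dom ∧ ∀ α ∈ p.dom, α ≤ θ}

theorem TopC_comp : Comp (TopC o U θ) := by
  intro p hp q hq
  exact ⟨hq.1 hp.1, le_bound hq hp.2⟩

theorem cat_top (hb : Below θ w) : cat H θ w A hA ∈ TopC o U θ := by
  refine ⟨mem_cat.2 (Or.inl rfl), fun α hα => ?_⟩
  rw [mem_cat] at hα
  rcases hα with rfl | hα
  · exact le_rfl
  · exact (hb α hα).le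

/-- decomposition at a point -/
theorem rst_Iic_eq_cat {q : Cnd o U} {z : Ordinal.{u}} (hz : z ∈ q.dom) :
    rst q (Iic z) = cat H z (rst q (Iio z)) (q.S z) (q.big hz) := by
  apply Cnd.ext'
  · ext α
    rw [mem_rst, mem_cat, mem_rst]
    simp only [mem_Iic, mem_Iio]
    constructor
    · rintro ⟨h1, h2⟩
      rcases h2.eq_or_lt with h | h
      · exact Or.inl h
      · exact Or.inr ⟨h1, h⟩
    · rintro (rfl | ⟨h1, h2⟩)
      · exact ⟨hz, le_rfl⟩
      · exact ⟨h1, h2.le⟩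
  · intro α hα
    rw [mem_rst] at hα
    rw [rst_S hα.2]
    rcases (show α ≤ z from hα.2).eq_or_lt with h | h
    · subst h
      rw [cat_S_top, S_inter]
    · rw [cat_S h.ne, rst_S (show α ∈ Iio z from h)]

theorem top_eq_cat {q : Cnd o U} (hq : q ∈ TopC o U θ) :
    q = cat H θ (rst q (Iio θ)) (q.S θ) (q.big hq.1) := by
  rw [← rst_Iic_eq_cat hq.1, rst_self (X := Iic θ) hq.2]

theorem below_rst {q : Cnd o U} {z : Ordinal.{u}} : Below z (rst q (Iio z)) :=
  fun _ hα => (mem_rst.1 hα).2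

theorem rst_Iic_le {q : Cnd o U} {z : Ordinal.{u}} : ∀ α ∈ (rst q (Iic z)).dom, α ≤ z :=
  fun _ hα => (mem_rst.1 hα).2

/-- clean at `η` : the sets attached to the points above `η` avoid `η + 1` -/
def Clean (η : Ordinal.{u}) (p : Cnd o U) : Prop := ∀ z ∈ p.dom, η < z → p.S z ⊆ Ioi η

theorem Clean.mono {η : Ordinal.{u}} {p q : Cnd o U} (hq : q ≤ p) (h : Clean η p) :
    Clean η q := by
  intro z hz hηz
  obtain ⟨β, hβ, hzβ, _, hS, _⟩ := hq.2 z hz
  exact hS.trans (h β hβ (hηz.trans_le hzβ))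

/-- if all sets and points shrink, we get a stronger condition -/
theorem le_of_same_dom {p q : Cnd o U} (h : q.dom = p.dom) (hS : ∀ α ∈ p.dom, q.S α ⊆ p.S α) :
    q ≤ p :=
  ⟨h ▸ Finset.Subset.refl _, fun α hα => ⟨α, h ▸ hα, le_rfl, fun _ _ h => h, hS α (h ▸ hα),
    Or.inl rfl⟩⟩

theorem clean_dense (H : IsCoherent κ o U) (η : Ordinal.{u}) (p : Cnd o U) :
    ∃ q ≤ p, q.dom = p.dom ∧ Clean η q := by
  classical
  have hf : ∀ α ∈ p.dom, Big o U α (if η < α then p.S α ∩ Ioi η else p.S α) := by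
    intro α hα
    by_cases h : η < α
    · rw [if_pos h]
      exact (p.big hα).inter (Big.tail H h)
    · rw [if_neg h]
      exact p.big hα
  refine ⟨mkC H p.dom _ hf, le_of_same_dom rfl ?_, rfl, ?_⟩
  · intro α hα
    rw [mkC_S _ _ _ _ hα]
    by_cases h : η < α
    · rw [if_pos h]
      exact fun x hx => hx.1.1
    · rw [if_neg h]
      exact fun x hx => hx.1
  · intro z hz hηz
    rw [mkC_dom] at hz
    rw [mkC_S _ _ _ _ hz, if_pos hηz]
    exact fun x hx => hx.1.2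

/-- restriction is monotone below clean conditions -/
theorem rs_mono {η : Ordinal.{u}} {p q : Cnd o U} (hq : q ≤ p) (h : Clean η p) :
    rst q (Iic η) ≤ rst p (Iic η) := by
  refine ⟨?_, ?_⟩
  · intro α hα
    rw [mem_rst] at hα ⊢
    exact ⟨hq.1 hα.1, hα.2⟩
  · intro α hα
    rw [mem_rst] at hα
    obtain ⟨β, hβ, hαβ, hmin, hS, hor⟩ := hq.2 α hα.1
    have hβη : β ≤ η := by
      by_contra hcon
      push Not at hcon
      rcases hor with h' | h'
      · rw [h'] at hα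
        exact absurd (mem_Iic.1 hα.2) (not_le.2 hcon)
      · exact absurd (mem_Iic.1 hα.2) (not_le.2 (h β hβ hcon h'))
    refine ⟨β, mem_rst.2 ⟨hβ, hβη⟩, hαβ, fun γ hγ => hmin γ (mem_rst.1 hγ).1, ?_, ?_⟩
    · rw [rst_S hα.2, rst_S (show β ∈ Iic η from hβη)]
      exact hS
    · rw [rst_S (show β ∈ Iic η from hβη)]
      exact hor

/-- grafting: replace the part of `p` up to `η` by a stronger one -/
theorem graft (H : IsCoherent κ o U) {η : Ordinal.{u}} {p w : Cnd o U}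
    (hw : w ≤ rst p (Iic η)) :
    ∃ q ≤ p, rst q (Iic η) = w ∧ (∀ α, η < α → (α ∈ q.dom ↔ α ∈ p.dom)) ∧
      (∀ α, η < α → q.S α = p.S α) ∧ (Clean η p → Clean η q) := by
  classical
  have hwη : ∀ α ∈ w.dom, α ≤ η := le_bound hw rst_Iic_le
  set D : Finset Ordinal.{u} := w.dom ∪ p.dom.filter (fun α => η < α) with hD
  have hDm : ∀ α, α ∈ D ↔ α ∈ w.dom ∨ (α ∈ p.dom ∧ η < α) := by
    intro α
    rw [hD, Finset.mem_union, Finset.mem_filter]
  have hf : ∀ α ∈ D, Big o U α (if η < α then p.S α else w.S α) := by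
    intro α hα
    rw [hDm] at hα
    rcases hα with hα | hα
    · rw [if_neg (not_lt.2 (hwη α hα))]
      exact w.big hα
    · rw [if_pos hα.2]
      exact p.big hα.1
  have hS1 : ∀ α, η < α → (mkC H D _ hf).S α = p.S α := by
    intro α hα
    by_cases hα' : α ∈ p.dom
    · rw [mkC_S _ _ _ _ ((hDm α).2 (Or.inr ⟨hα', hα⟩)), if_pos hα, S_inter]
    · rw [p.off α hα', Cnd.off]
      rw [mkC_dom, hDm]
      rintro (h | h)
      · exact absurd (hwη α h) (not_le.2 hα)
      · exact hα' h.1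
  have hS2 : ∀ α ∈ w.dom, (mkC H D _ hf).S α = w.S α := by
    intro α hα
    rw [mkC_S _ _ _ _ ((hDm α).2 (Or.inl hα)), if_neg (not_lt.2 (hwη α hα)), S_inter]
  refine ⟨mkC H D _ hf, ?_, ?_, ?_, hS1, ?_⟩
  · refine ⟨?_, ?_⟩
    · intro α hα
      rw [mkC_dom, hDm]
      by_cases h : η < α
      · exact Or.inr ⟨hα, h⟩
      · exact Or.inl (hw.1 (mem_rst.2 ⟨hα, not_lt.1 h⟩))
    · intro α hα
      have hα0 := hα
      rw [mkC_dom, hDm] at hα
      rcases hα with hα | hα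
      · obtain ⟨β, hβ, hαβ, hmin, hS, hor⟩ := hw.2 α hα
        have hβ' := mem_rst.1 hβ
        refine ⟨β, hβ'.1, hαβ, ?_, ?_, ?_⟩
        · intro γ hγ hαγ
          by_cases h : γ ≤ η
          · exact hmin γ (mem_rst.2 ⟨hγ, h⟩) hαγ
          · exact (show β ≤ η from hβ'.2).trans (not_le.1 h).le
        · rw [hS2 α hα]
          rw [rst_S hβ'.2] at hS
          exact hS
        · rw [rst_S hβ'.2] at hor
          exact hor
      · exact ⟨α, hα.1, le_rfl, fun _ _ h => h, (hS1 α hα.2).le, Or.inl rfl⟩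
  · apply Cnd.ext'
    · ext α
      rw [mem_rst, mkC_dom, hDm]
      constructor
      · rintro ⟨h | h, h2⟩
        · exact h
        · exact absurd h.2 (not_lt.2 h2)
      · intro h
        exact ⟨Or.inl h, hwη α h⟩
    · intro α hα
      rw [mem_rst, mkC_dom, hDm] at hα
      rw [rst_S hα.2]
      rcases hα.1 with h | h
      · exact hS2 α h
      · exact absurd h.2 (not_lt.2 hα.2)
  · intro α hα
    rw [mkC_dom, hDm]
    constructor
    · rintro (h | h)
      · exact absurd (hwη α h) (not_le.2 hα)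
      · exact h.1
    · intro h
      exact Or.inr ⟨h, hα⟩
  · intro hc z hz hηz
    rw [hS1 z hηz]
    rw [mkC_dom, hDm] at hz
    rcases hz with h | h
    · exact absurd (hwη z h) (not_le.2 hηz)
    · exact hc z h.1 hηz

/-- points above a bound of `w` in an extension of `cat θ w A` -/
theorem le_cat_gt {q : Cnd o U} {μ : Ordinal.{u}} (hq : q ≤ cat H θ w A hA)
    (hw : ∀ α ∈ w.dom, α ≤ μ) {α : Ordinal.{u}} (hα : α ∈ q.dom) (hμ : μ < α) :
    α ≤ θ ∧ q.S α ⊆ A ∧ (α = θ ∨ α ∈ A) := by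
  obtain ⟨β, hβ, hαβ, hmin, hS, hor⟩ := hq.2 α hα
  rw [mem_cat] at hβ
  have hβθ : β = θ := by
    rcases hβ with h | h
    · exact h
    · exact absurd (hw β h) (not_le.2 (hμ.trans_le hαβ))
  subst hβθ
  rw [cat_S_top] at hS hor
  exact ⟨hαβ, fun x hx => (hS hx).1, hor.imp id fun h => h.1⟩

theorem cat_clean {μ : Ordinal.{u}} (hw : ∀ α ∈ w.dom, α ≤ μ) (hAμ : A ⊆ Ioi μ) :
    Clean μ (cat H θ w A hA) := by
  intro z hz hμz
  rw [mem_cat] at hz
  rcases hz with rfl | hz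
  · rw [cat_S_top]
    exact fun x hx => hAμ hx.1
  · exact absurd (hw z hz) (not_le.2 hμz)

theorem rst_cat {μ : Ordinal.{u}} (hw : ∀ α ∈ w.dom, α ≤ μ) (hμ : μ < θ) :
    rst (cat H θ w A hA) (Iic μ) = w := by
  apply Cnd.ext'
  · ext α
    rw [mem_rst, mem_cat]
    constructor
    · rintro ⟨rfl | h, h2⟩
      · exact absurd h2 (not_le.2 hμ)
      · exact h
    · intro h
      exact ⟨Or.inr h, hw α h⟩
  · intro α hα
    rw [mem_rst, mem_cat] at hα
    rw [rst_S hα.2, cat_S]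
    rintro rfl
    exact absurd hα.2 (not_le.2 hμ)

theorem le_cat_rst {q : Cnd o U} {μ : Ordinal.{u}} (hq : q ≤ cat H θ w A hA)
    (hw : ∀ α ∈ w.dom, α ≤ μ) (hμ : μ < θ) (hAμ : A ⊆ Ioi μ) :
    rst q (Iic μ) ≤ w := by
  have := rs_mono hq (cat_clean hw hAμ)
  rwa [rst_cat hw hμ] at this

/-- introduction rule for `q ≤ cat θ w A` -/
theorem le_cat_intro {q : Cnd o U} {μ : Ordinal.{u}} (hqt : q ∈ TopC o U θ)
    (hw : rst q (Iic μ) ≤ w) (hwμ : ∀ α ∈ w.dom, α ≤ μ) (hμ : μ < θ)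
    (h : ∀ α ∈ q.dom, μ < α → q.S α ⊆ A ∧ (α = θ ∨ α ∈ A)) : q ≤ cat H θ w A hA := by
  refine ⟨?_, ?_⟩
  · intro α hα
    rw [mem_cat] at hα
    rcases hα with rfl | hα
    · exact hqt.1
    · exact (mem_rst.1 (hw.1 hα)).1
  · intro α hα
    by_cases hαμ : α ≤ μ
    · obtain ⟨β, hβ, hαβ, hmin, hS, hor⟩ := hw.2 α (mem_rst.2 ⟨hα, hαμ⟩)
      have hβθ : β ≠ θ := ((hwμ β hβ).trans_lt hμ).ne
      refine ⟨β, mem_cat.2 (Or.inr hβ), hαβ, ?_, ?_, ?_⟩
      · intro γ hγ hαγ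
        rw [mem_cat] at hγ
        rcases hγ with rfl | hγ
        · exact ((hwμ β hβ).trans_lt hμ).le
        · exact hmin γ hγ hαγ
      · rw [cat_S hβθ]
        rw [rst_S (show α ∈ Iic μ from hαμ)] at hS
        exact hS
      · rw [cat_S hβθ]
        exact hor
    · push Not at hαμ
      obtain ⟨h1, h2⟩ := h α hα hαμ
      refine ⟨θ, mem_cat.2 (Or.inl rfl), hqt.2 α hα, ?_, ?_, ?_⟩
      · intro γ hγ hαγ
        rw [mem_cat] at hγ
        rcases hγ with rfl | hγ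
        · exact le_rfl
        · exact absurd (hwμ γ hγ) (not_le.2 (hαμ.trans_le hαγ))
      · rw [cat_S_top]
        exact fun x hx => ⟨h1 hx, lt_of_lt_of_le (q.sub α hx) (hqt.2 α hα)⟩
      · rw [cat_S_top]
        rcases h2 with h2 | h2
        · exact Or.inl h2
        · rcases (hqt.2 α hα).eq_or_lt with h3 | h3
          · exact Or.inl h3
          · exact Or.inr ⟨h2, h3⟩

/-- insertion of a point -/
theorem insert_pt (H : IsCoherent κ o U) {q : Cnd o U} {z y : Ordinal.{u}} (hz : z ∈ q.dom)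
    (hy : y ∈ q.S z) (hB : Big o U y (q.S z)) (hlow : ∀ α ∈ q.dom, α < z → α < y) :
    ∃ r ≤ q, y ∈ r.dom ∧ ∀ α ∈ r.dom, α = y ∨ α ∈ q.dom := by
  classical
  have hyz : y < z := q.sub z hy
  have hf : ∀ α ∈ insert y q.dom, Big o U α (if α = y then q.S z else q.S α) := by
    intro α hα
    by_cases h : α = y
    · subst h
      rw [if_pos rfl]
      exact hB
    · rw [if_neg h]
      exact q.big ((Finset.mem_insert.1 hα).resolve_left h)
  refine ⟨mkC H _ _ hf, ⟨?_, ?_⟩, ?_, ?_⟩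
  · intro α hα
    rw [mkC_dom]
    exact Finset.mem_insert_of_mem hα
  · intro α hα
    rw [mkC_dom] at hα
    by_cases h : α = y
    · subst h
      refine ⟨z, hz, hyz.le, ?_, ?_, Or.inr hy⟩
      · intro γ hγ hγy
        by_contra hcon
        push Not at hcon
        exact absurd hγy (not_le.2 (hlow γ hγ hcon))
      · rw [mkC_S _ _ _ _ hα, if_pos rfl]
        exact inter_subset_left
    · have hα' := (Finset.mem_insert.1 hα).resolve_left h
      refine ⟨α, hα', le_rfl, fun _ _ h => h, ?_, Or.inl rfl⟩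
      rw [mkC_S _ _ _ _ hα, if_neg h]
      exact inter_subset_left
  · rw [mkC_dom]
    exact Finset.mem_insert_self _ _
  · intro α hα
    rw [mkC_dom] at hα
    exact Finset.mem_insert.1 hα

end MagRad
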