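import Mathlib

/-!
# Magidor-Radin forcing: definitions

Coherent sequences of normal measures, the conditions of the Magidor-Radin forcing, regular
(open) subsets of a poset, and the complete subalgebra generated by a family of them.
-/

namespace MagRad

universe u v

/-- `W` is a normal measure on the ordinal `α`: an ultrafilter on the ordinals that concentrates
on `α`, contains every final segment of `α`, and is closed under diagonal intersections of
length `α`.  (It follows that `α` is a measurable cardinal and that `W`, restricted to the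
subsets of `α`, is a nonprincipal `α`-complete normal ultrafilter on `α`.) -/
structure IsNormalMeasure (α : Ordinal.{u}) (W : Ultrafilter Ordinal.{u}) : Prop where
  conc : Set.Iio α ∈ W
  tail : ∀ ξ < α, Set.Ioi ξ ∈ W
  diag : ∀ X : Ordinal.{u} → Set Ordinal.{u}, (∀ ξ < α, X ξ ∈ W) →
    {ν | ∀ ξ < ν, ν ∈ X ξ} ∈ W

/-- `⟨U α β : α ≤ κ, β < o α⟩` is a coherent sequence of normal measures in the sense of
Mitchell (`o α = 0` for `α > κ`, and the values `U α β` with `β ≥ o α` are irrelevant).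
Coherence at `(α, β)`, where `j` is the ultrapower map of `U α β`, says `o^{j(U)}(α) = β` and
`j(U)(α, i) = U α i` for `i < β`.  By Los this means: the functions below `o` modulo `U α β` are
represented, in increasing order, by functions `F i` (`i < β`), and `X ∈ U α i` if and only if
`X ∈ U ν (F i ν)` (that is, `X ∩ ν ∈ U ν (F i ν)`) for `U α β`-almost all `ν`. -/
structure IsCoherent (κ : Ordinal.{u}) (o : Ordinal.{u} → Ordinal.{u})
    (U : Ordinal.{u} → Ordinal.{u} → Ultrafilter Ordinal.{u}) : Prop where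
  above : ∀ α, κ < α → o α = 0
  normal : ∀ α β, β < o α → IsNormalMeasure α (U α β)
  coh : ∀ α β, β < o α → ∃ F : Ordinal.{u} → Ordinal.{u} → Ordinal.{u},
    (∀ i < β, {ν | F i ν < o ν} ∈ U α β) ∧
    (∀ i j, i < j → j < β → {ν | F i ν < F j ν} ∈ U α β) ∧
    (∀ g : Ordinal.{u} → Ordinal.{u}, {ν | g ν < o ν} ∈ U α β →
      ∃ i < β, {ν | g ν = F i ν} ∈ U α β) ∧
    (∀ i < β, ∀ X : Set Ordinal.{u}, X ∈ U α i ↔ {ν | X ∈ U ν (F i ν)} ∈ U α β)

/-- A finite sequence `⟨(κ₁, A₁), …, (κₙ, Aₙ)⟩` with `κ₁ < ⋯ < κₙ`, `Aᵢ ⊆ κᵢ` and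
`Aᵢ ∈ U κᵢ β` for all `β < o κᵢ`.  It is given by the finite set `dom = {κ₁, …, κₙ}` and the
function `S κᵢ = Aᵢ` (with value `∅` off `dom`). -/
structure Cnd (o : Ordinal.{u} → Ordinal.{u})
    (U : Ordinal.{u} → Ordinal.{u} → Ultrafilter Ordinal.{u}) : Type (u + 1) where
  dom : Finset Ordinal.{u}
  S : Ordinal.{u} → Set Ordinal.{u}
  sub : ∀ α, S α ⊆ Set.Iio α
  off : ∀ α, α ∉ dom → S α = ∅
  mem : ∀ α ∈ dom, ∀ β < o α, S α ∈ U α β

/-- The ordering: `p` is stronger than `q` if the points of `q` are points of `p` and, for every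
point `α` of `p`, if `β` is the least point of `q` that is at least `α`, then the set of `p` at
`α` is contained in the set of `q` at `β`, and `α` is either `β` itself (the set was shrunk) or a
member of the set of `q` at `β` (`α` was inserted). -/
def Cnd.Ext {o : Ordinal.{u} → Ordinal.{u}}
    {U : Ordinal.{u} → Ordinal.{u} → Ultrafilter Ordinal.{u}} (p q : Cnd o U) : Prop :=
  q.dom ⊆ p.dom ∧ ∀ α ∈ p.dom, ∃ β ∈ q.dom, α ≤ β ∧ (∀ γ ∈ q.dom, α ≤ γ → β ≤ γ) ∧
    p.S α ⊆ q.S β ∧ (α = β ∨ α ∈ q.S β)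

theorem Cnd.Ext.refl {o : Ordinal.{u} → Ordinal.{u}}
    {U : Ordinal.{u} → Ordinal.{u} → Ultrafilter Ordinal.{u}} (p : Cnd o U) : p.Ext p :=
  ⟨fun _ h => h, fun α hα => ⟨α, hα, le_rfl, fun _ _ h => h, fun _ h => h, Or.inl rfl⟩⟩

theorem Cnd.Ext.trans {o : Ordinal.{u} → Ordinal.{u}}
    {U : Ordinal.{u} → Ordinal.{u} → Ultrafilter Ordinal.{u}} {p q r : Cnd o U}
    (h₁ : p.Ext q) (h₂ : q.Ext r) : p.Ext r := by
  refine ⟨fun x hx => h₁.1 (h₂.1 hx), fun α hα => ?_⟩
  obtain ⟨β, hβ, hαβ, hmin, hS, hor⟩ := h₁.2 α hα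
  obtain ⟨γ, hγ, hβγ, hmin', hS', hor'⟩ := h₂.2 β hβ
  refine ⟨γ, hγ, hαβ.trans hβγ, fun δ hδ hαδ => hmin' δ hδ (hmin δ (h₂.1 hδ) hαδ),
    fun x hx => hS' (hS hx), ?_⟩
  rcases hor with rfl | h
  · exact hor'
  · exact Or.inr (hS' h)

instance {o : Ordinal.{u} → Ordinal.{u}}
    {U : Ordinal.{u} → Ordinal.{u} → Ultrafilter Ordinal.{u}} : Preorder (Cnd o U) where
  le := Cnd.Ext
  le_refl := Cnd.Ext.refl
  le_trans _ _ _ := Cnd.Ext.trans

/-- The Magidor-Radin forcing `M[U]` on `κ`: the conditions whose last point is `κ`. -/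
def MR (o : Ordinal.{u} → Ordinal.{u}) (U : Ordinal.{u} → Ordinal.{u} → Ultrafilter Ordinal.{u})
    (κ : Ordinal.{u}) : Type (u + 1) :=
  {p : Cnd o U // κ ∈ p.dom ∧ ∀ α ∈ p.dom, α ≤ κ}

instance {o : Ordinal.{u} → Ordinal.{u}}
    {U : Ordinal.{u} → Ordinal.{u} → Ultrafilter Ordinal.{u}} {κ : Ordinal.{u}} :
    Preorder (MR o U κ) :=
  inferInstanceAs (Preorder {p : Cnd o U // κ ∈ p.dom ∧ ∀ α ∈ p.dom, α ≤ κ})

/-- The regular set of the conditions forcing that the ordinal `ν` belongs to the generic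
sequence `C_G` (for `ν < κ`): below them the conditions in which `ν` occurs are dense. -/
def occurs {o : Ordinal.{u} → Ordinal.{u}}
    {U : Ordinal.{u} → Ordinal.{u} → Ultrafilter Ordinal.{u}} (κ ν : Ordinal.{u}) :
    Set (MR o U κ) := {p | ∀ q ≤ p, ∃ r ≤ q, ν ∈ r.1.dom}

section Poset

variable {P : Type v} [Preorder P]

/-- Regular subsets of a poset: closed under stronger conditions, and containing every condition
below which they are dense.  They are the elements of the complete Boolean algebra of the poset.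
A name for a subset of a ground model set `ι` is (up to equivalence of names) a family
`A : ι → Set P` of regular sets, `A i` being the set of the conditions that force `i` into it;
so its value is `A_G = {i | A i` meets `G}`. -/
def IsRegular (D : Set P) : Prop :=
  (∀ p ∈ D, ∀ q ≤ p, q ∈ D) ∧ ∀ p, (∀ q ≤ p, ∃ r ≤ q, r ∈ D) → p ∈ D

/-- The complement in the algebra of regular sets. -/
def negSet (D : Set P) : Set P := {p | ∀ q ≤ p, q ∉ D}

/-- The supremum of a family in the algebra of regular sets. -/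
def supSet (𝒟 : Set (Set P)) : Set P := {p | ∀ q ≤ p, ∃ r ≤ q, ∃ D ∈ 𝒟, r ∈ D}

/-- `Generated 𝒢 D`: the regular set `D` is in the complete subalgebra generated by `𝒢`, the
closure of `𝒢` under complements and arbitrary suprema. -/
inductive Generated (𝒢 : Set (Set P)) : Set P → Prop
  | base (D : Set P) : D ∈ 𝒢 → Generated 𝒢 D
  | neg (D : Set P) : Generated 𝒢 D → Generated 𝒢 (negSet D)
  | sup (𝒟 : Set (Set P)) : (∀ D ∈ 𝒟, Generated 𝒢 D) → Generated 𝒢 (supSet 𝒟)

/-- The complete subalgebra generated by `𝒢`, restricted to the cone below `q`.  If `A` is a name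
and `G` is a generic filter, `V[A_G]` is generated over `V` by the intersection of `G` with the
complete subalgebra generated by the `A i`; so `traceBelow q (range A) = traceBelow q (range C)`
implies `V[A_G] = V[C_G]` for every generic `G` containing `q`. -/
def traceBelow (q : P) (𝒢 : Set (Set P)) : Set (Set P) :=
  {X | ∃ D, Generated 𝒢 D ∧ X = D ∩ Set.Iic q}

end Poset

end MagRad
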