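import Pool.Agent.MagRad.Stem

/-!
# From linked pairs to the algebras
-/

namespace MagRad

universe u v

open Set

variable {κ : Ordinal.{u}}
variable {o : Ordinal.{u} → Ordinal.{u}} {U : Ordinal.{u} → Ordinal.{u} → Ultrafilter Ordinal.{u}}

def img (D : Set (MR o U κ)) : Set (Cnd o U) := {p | ∃ h : p ∈ TopC o U κ, (⟨p, h⟩ : MR o U κ) ∈ D}

def pre (D : Set (Cnd o U)) : Set (MR o U κ) := {p | p.1 ∈ D}

theorem mr_le {p q : MR o U κ} : p ≤ q ↔ p.1 ≤ q.1 := Iff.rfl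

theorem img_neg (D : Set (MR o U κ)) : img (negSet D) = nega (TopC o U κ) (img D) := by
  ext p
  constructor
  · rintro ⟨h, hn⟩
    refine ⟨h, fun q hq hqD => ?_⟩
    obtain ⟨h', hq'⟩ := hqD
    exact hn ⟨q, h'⟩ hq hq'
  · rintro ⟨h, hn⟩
    refine ⟨h, fun q hq hqD => ?_⟩
    exact hn q.1 hq ⟨q.2, hqD⟩

theorem img_sup (𝒟 : Set (Set (MR o U κ))) :
    img (supSet 𝒟) = supr (TopC o U κ) {E | ∃ D ∈ 𝒟, img D = E} := by
  ext p
  constructor
  · rintro ⟨h, hn⟩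
    refine ⟨h, fun q hq => ?_⟩
    obtain ⟨r, hr, D, hD, hrD⟩ := hn ⟨q, TopC_comp p h q hq⟩ hq
    exact ⟨r.1, hr, img D, ⟨D, hD, rfl⟩, r.2, hrD⟩
  · rintro ⟨h, hn⟩
    refine ⟨h, fun q hq => ?_⟩
    obtain ⟨r, hr, E, ⟨D, hD, rfl⟩, hrK, hrD⟩ := hn q.1 hq
    exact ⟨⟨r, hrK⟩, hr, D, hD, hrD⟩

theorem pre_neg (D : Set (Cnd o U)) :
    (pre (nega (TopC o U κ) D) : Set (MR o U κ)) = negSet (pre D) := by
  ext p
  constructor
  · intro h q hq hqD
    exact h.2 q.1 hq hqD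
  · intro h
    exact ⟨p.2, fun q hq hqD => h ⟨q, TopC_comp p.1 p.2 q hq⟩ hq hqD⟩

theorem pre_sup (𝒟 : Set (Set (Cnd o U))) :
    (pre (supr (TopC o U κ) 𝒟) : Set (MR o U κ)) = supSet {E | ∃ D ∈ 𝒟, pre D = E} := by
  ext p
  constructor
  · intro h q hq
    obtain ⟨r, hr, D, hD, hrD⟩ := h.2 q.1 hq
    exact ⟨⟨r, TopC_comp q.1 q.2 r hr⟩, hr, pre D, ⟨D, hD, rfl⟩, hrD⟩
  · intro h
    refine ⟨p.2, fun q hq => ?_⟩
    obtain ⟨r, hr, E, ⟨D, hD, rfl⟩, hrD⟩ := h ⟨q, TopC_comp p.1 p.2 q hq⟩ hq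
    exact ⟨r.1, hr, D, hD, hrD⟩

theorem gen_to {𝒢 : Set (Set (MR o U κ))} {𝒢' : Set (Set (Cnd o U))}
    (h : ∀ E ∈ 𝒢, GenK (TopC o U κ) 𝒢' (img E)) {D : Set (MR o U κ)} (hD : Generated 𝒢 D) :
    GenK (TopC o U κ) 𝒢' (img D) := by
  induction hD with
  | base D hD => exact h D hD
  | neg D _ ih =>
    rw [img_neg]
    exact GenK.neg _ ih
  | sup 𝒟 _ ih =>
    rw [img_sup]
    refine GenK.sup _ ?_
    rintro E ⟨D, hD, rfl⟩
    exact ih D hD

theorem gen_from {𝒢 : Set (Set (Cnd o U))} {𝒢' : Set (Set (MR o U κ))}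
    (h : ∀ E ∈ 𝒢, Generated 𝒢' (pre E)) {D : Set (Cnd o U)} (hD : GenK (TopC o U κ) 𝒢 D) :
    Generated 𝒢' (pre D) := by
  induction hD with
  | base D hD => exact h D hD
  | neg D _ ih =>
    rw [pre_neg]
    exact Generated.neg _ ih
  | sup 𝒟 _ ih =>
    rw [pre_sup]
    refine Generated.sup _ ?_
    rintro E ⟨D, hD, rfl⟩
    exact ih D hD

theorem img_reg {D : Set (MR o U κ)} (h : IsRegular D) : IsReg (TopC o U κ) (img D) := by
  refine ⟨fun p hp => hp.1, ?_, ?_⟩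
  · rintro p ⟨hK, hp⟩ q hq
    exact ⟨TopC_comp p hK q hq, h.1 _ hp ⟨q, TopC_comp p hK q hq⟩ hq⟩
  · intro p hK hp
    refine ⟨hK, h.2 _ fun q hq => ?_⟩
    obtain ⟨r, hr, hrK, hrD⟩ := hp q.1 hq
    exact ⟨⟨r, hrK⟩, hr, hrD⟩

theorem pre_reg {D : Set (Cnd o U)} (h : IsReg (TopC o U κ) D) :
    IsRegular (pre D : Set (MR o U κ)) := by
  refine ⟨fun p hp q hq => h.down p.1 hp q.1 hq, fun p hp => h.dense p.1 p.2 fun q hq => ?_⟩
  obtain ⟨r, hr, hrD⟩ := hp ⟨q, TopC_comp p.1 p.2 q hq⟩ hq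
  exact ⟨r.1, hr, hrD⟩

/-- The main theorem. -/
theorem main (H : IsCoherent κ o U) {ι : Type v} (A : ι → Set (MR o U κ))
    (hA : ∀ i, IsRegular (A i)) (p : MR o U κ) :
    ∃ q ≤ p, ∃ C : Set.Iio κ → Set (MR o U κ), (∀ ν, IsRegular (C ν)) ∧
      (∀ ν, C ν ⊆ occurs κ ν) ∧ traceBelow q (range A) = traceBelow q (range C) := by
  set 𝒜 : Set (Set (Cnd o U)) := {E | ∃ i, img (A i) = E} with h𝒜
  set ℬ : Set (Set (Cnd o U)) := {D | GenK (TopC o U κ) 𝒜 D} with hℬ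
  have hfam : IsFam (TopC o U κ) ℬ := genK_fam TopC_comp (by
    rintro D ⟨i, rfl⟩
    exact img_reg (hA i))
  obtain ⟨q₀, hq₀, c, hreg, hocc, htop, hi, hii⟩ := concl H κ ℬ hfam p.1 p.2
  have hq₀K : q₀ ∈ TopC o U κ := TopC_comp p.1 p.2 q₀ hq₀
  set 𝒟 : Set (Set (Cnd o U)) := {D | GenK (TopC o U κ) (range c) D} with h𝒟
  have hfam' : IsFam (TopC o U κ) 𝒟 := genK_fam TopC_comp (by
    rintro D ⟨ν, rfl⟩
    exact hreg ν)
  refine ⟨⟨q₀, hq₀K⟩, hq₀, fun ν => pre (c ν), fun ν => pre_reg (hreg ν), ?_, ?_⟩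
  · intro ν p hp q hq
    obtain ⟨r, hr, hν⟩ := hocc ν hp q.1 hq
    exact ⟨⟨r, TopC_comp q.1 q.2 r hr⟩, hr, hν⟩
  · ext X
    constructor
    · rintro ⟨D, hD, rfl⟩
      have h1 : GenK (TopC o U κ) 𝒜 (img D) := by
        refine gen_to ?_ hD
        rintro E ⟨i, rfl⟩
        exact GenK.base _ ⟨i, rfl⟩
      obtain ⟨E, hE, hEq⟩ := criterion hfam' (hfam.reg _ h1) (q := q₀)
        (fun p p' hp hp' hL hpD => hii p p' hp hp' hL _ h1 hpD) hq₀K
      refine ⟨pre E, gen_from ?_ hE, ?_⟩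
      · rintro E ⟨ν, rfl⟩
        by_cases hν : ν < κ
        · exact Generated.base _ ⟨⟨ν, hν⟩, rfl⟩
        · have e : (pre (c ν) : Set (MR o U κ)) = supSet ∅ := by
            rw [htop ν (not_lt.1 hν)]
            ext p
            constructor
            · intro h
              exact absurd h (notMem_empty p.1)
            · intro h
              obtain ⟨_, _, D, hD, _⟩ := h p le_rfl
              exact absurd hD (notMem_empty D)
          rw [e]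
          exact Generated.sup ∅ fun D hD => absurd hD (notMem_empty D)
      · ext r
        constructor
        · rintro ⟨hrD, hrq⟩
          exact ⟨(hEq r.1 hrq).2 ⟨r.2, hrD⟩, hrq⟩
        · rintro ⟨hrE, hrq⟩
          obtain ⟨_, h⟩ := (hEq r.1 hrq).1 hrE
          exact ⟨h, hrq⟩
    · rintro ⟨D, hD, rfl⟩
      have h1 : GenK (TopC o U κ) (range c) (img D) := by
        refine gen_to ?_ hD
        rintro E ⟨ν, rfl⟩
        have e : img (pre (c ν) : Set (MR o U κ)) = c ν := by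
          ext p
          constructor
          · rintro ⟨_, h⟩
            exact h
          · intro h
            exact ⟨(hreg ν).sub h, h⟩
        show GenK (TopC o U κ) (range c) (img (pre (c ν.1)))
        rw [e]
        exact GenK.base _ ⟨ν.1, rfl⟩
      obtain ⟨b, hb, hbq⟩ := gen_trace hfam (q := q₀) (by
        rintro E ⟨ν, rfl⟩
        exact criterion hfam (hreg ν) (fun p p' hp hp' hL hpD => hi ν p p' hp hp' hL hpD)
          hq₀K) h1
      refine ⟨pre b, gen_from ?_ hb, ?_⟩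
      · rintro E ⟨i, rfl⟩
        have e : (pre (img (A i)) : Set (MR o U κ)) = A i := by
          ext p
          constructor
          · rintro ⟨_, h⟩
            exact h
          · intro h
            exact ⟨p.2, h⟩
        rw [e]
        exact Generated.base _ ⟨i, rfl⟩
      · ext r
        constructor
        · rintro ⟨hrD, hrq⟩
          exact ⟨(hbq r.1 hrq).2 ⟨r.2, hrD⟩, hrq⟩
        · rintro ⟨hrE, hrq⟩
          obtain ⟨_, h⟩ := (hbq r.1 hrq).1 hrE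
          exact ⟨h, hrq⟩

end MagRad
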