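import Pool.Agent.MagRad.Cond

/-!
# The glue lemma
-/

namespace MagRad

universe u

open Set

variable {κ : Ordinal.{u}}
variable {o : Ordinal.{u} → Ordinal.{u}} {U : Ordinal.{u} → Ordinal.{u} → Ultrafilter Ordinal.{u}}

/-- points of a measure one set can be inserted below `z` -/
theorem insert_in (H : IsCoherent κ o U) {q : Cnd o U} {z j : Ordinal.{u}} (hz : z ∈ q.dom)
    (hj : j < o z) {Y : Set Ordinal.{u}} (hY : Y ∈ U z j) :
    ∃ r ≤ q, ∃ y ∈ r.dom, y ∈ Y ∧ y < z := by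
  have hN := H.normal z j hj
  have hzpos := theta_pos hN
  obtain ⟨μ, hμ, hμb⟩ := Below.bound hzpos (below_rst (q := q) (z := z))
  have h1 : q.S z ∈ U z j := q.mem z hz j hj
  have h2 : {ν | Big o U ν (q.S z)} ∈ U z j := (q.big hz).reflect H hj
  have h3 := hN.tail μ hμ
  obtain ⟨y, ⟨hyY, hyS⟩, hyB, hyμ⟩ := um_ne (um_inter (um_inter hY h1) (um_inter h2 h3))
  obtain ⟨r, hr, hyr, _⟩ := insert_pt H hz hyS hyB (fun α hα hαz =>
    lt_of_le_of_lt (hμb α (mem_rst.2 ⟨hα, hαz⟩)) hyμ)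
  exact ⟨r, hr, y, hyr, hyY, q.sub z hyS⟩

theorem glue (H : IsCoherent κ o U) {θ γ m : Ordinal.{u}} (hγ : γ < o θ) (hm : m < θ)
    {Y : Set Ordinal.{u}} (hY : Y ∈ U θ γ)
    (E : Ordinal.{u} → Set Ordinal.{u}) (hE : ∀ y, Big o U y (E y))
    (A' : Ordinal.{u} → Set Ordinal.{u}) (hA' : ∀ y, Big o U θ (A' y)) :
    ∃ (A₁ : Set Ordinal.{u}) (hA₁ : Big o U θ A₁) (Y' : Set Ordinal.{u}), Y' ⊆ Y ∧ Y' ∈ U θ γ ∧
      (∀ y ∈ Y', m < y ∧ y < θ) ∧ A₁ ⊆ Ioi m ∧
      ∀ u : Cnd o U, (∀ α ∈ u.dom, α ≤ m) →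
        (∀ q ≤ cat H θ u A₁ hA₁, ∃ r ≤ q, ∃ y ∈ r.dom, y ∈ Y') ∧
        (∀ q ≤ cat H θ u A₁ hA₁, ∀ y ∈ Y', y ∈ q.dom → ∃ r ≤ q,
          r ≤ cat H θ (cat H y u (E y) (hE y)) (A' y) (hA' y) ∨
            ∃ y' ∈ r.dom, y' ∈ Y' ∧ y' < y) := by
  classical
  have hN := H.normal θ γ hγ
  set Ag : Set Ordinal.{u} := {ν | {y | ν ∈ E y} ∈ U θ γ} with hAg
  have hEq : {y | ∀ ν < y, y ∈ {y | ν ∈ E y ↔ ν ∈ Ag}} ∈ U θ γ := by
    refine hN.diag _ fun ν _ => ?_
    by_cases hν : {y | ν ∈ E y} ∈ U θ γ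
    · refine um_mono hν fun y hy => ?_
      exact ⟨fun _ => hν, fun _ => hy⟩
    · refine um_mono (um_not_setOf hν) fun y hy => ?_
      exact ⟨fun h => absurd h hy, fun h => absurd h hν⟩
  set Y' : Set Ordinal.{u} := (Y ∩ {y | ∀ ν < y, y ∈ {y | ν ∈ E y ↔ ν ∈ Ag}}) ∩
    (Ioi m ∩ Iio θ) with hY'
  have hY'U : Y' ∈ U θ γ := um_inter (um_inter hY hEq) (um_inter (hN.tail m hm) hN.conc)
  have hY'E : ∀ y ∈ Y', ∀ ν < y, (ν ∈ E y ↔ ν ∈ Ag) := fun y hy ν hν => hy.1.2 ν hν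
  set T : Set Ordinal.{u} := {z | ∃ j < o z, Y' ∈ U z j} with hT
  set A'' : Set Ordinal.{u} := {ν | ∀ y < ν, ν ∈ A' y} with hA''
  have hA''B : Big o U θ A'' := fun γ' hγ' =>
    (H.normal θ γ' hγ').diag A' fun y _ => hA' y γ' hγ'
  have hAYT : Big o U θ (Ag ∪ Y' ∪ T) := by
    intro γ' hγ'
    rcases lt_trichotomy γ' γ with h | h | h
    · obtain ⟨F, hF1, hF2, hF3, hF4⟩ := H.coh θ γ hγ
      have : Ag ∈ U θ γ' := by
        rw [hF4 γ' h]
        refine um_mono (um_inter (hF1 γ' h) hY'U) ?_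
        rintro y ⟨hy1, hy2⟩
        have h1 : E y ∈ U y (F γ' y) := hE y _ hy1
        have h2 := (H.normal y (F γ' y) hy1).conc
        refine um_mono (um_inter h1 h2) ?_
        rintro ν ⟨hν1, hν2⟩
        exact (hY'E y hy2 ν hν2).1 hν1
      exact um_mono this fun x hx => Or.inl (Or.inl hx)
    · subst h
      exact um_mono hY'U fun x hx => Or.inl (Or.inr hx)
    · obtain ⟨F, hF1, hF2, hF3, hF4⟩ := H.coh θ γ' hγ'
      have h1 := (hF4 γ h Y').1 hY'U
      refine um_mono (um_inter (hF1 γ h) h1) ?_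
      rintro ν ⟨hν1, hν2⟩
      exact Or.inr ⟨F γ ν, hν1, hν2⟩
  -- closure of T
  have hTcl : ∀ z j, j < o z → T ∈ U z j → z ∈ T := by
    intro z j hj hTj
    obtain ⟨F, hF1, hF2, hF3, hF4⟩ := H.coh z j hj
    have h2 : ∀ ν : Ordinal.{u}, ∃ i, ν ∈ T → i < o ν ∧ Y' ∈ U ν i := by
      intro ν
      by_cases hν : ν ∈ T
      · obtain ⟨i, hi, hY'i⟩ := hν
        exact ⟨i, fun _ => ⟨hi, hY'i⟩⟩
      · exact ⟨0, fun h => absurd h hν⟩
    choose g hg using h2
    obtain ⟨i, hi, hgi⟩ := hF3 g (um_mono hTj fun ν hν => (hg ν hν).1)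
    refine ⟨i, hi.trans hj, (hF4 i hi Y').2 ?_⟩
    refine um_mono (um_inter hTj hgi) ?_
    rintro ν ⟨hν1, hν2⟩
    have := (hg ν hν1).2
    rw [hν2] at this
    exact this
  have hBig : ∀ z B, z ∉ T → Big o U z B → B ⊆ Ag ∪ Y' ∪ T → Big o U z (B ∩ Ag) := by
    intro z B hzT hB hBs j hj
    have h1 : Ag ∪ Y' ∪ T ∈ U z j := um_mono (hB j hj) hBs
    rcases um_or h1 with h1 | h1
    · rcases um_or h1 with h1 | h1
      · exact um_inter (hB j hj) h1
      · exact absurd ⟨j, hj, h1⟩ hzT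
    · exact absurd (hTcl z j hj h1) hzT
  set A₁ : Set Ordinal.{u} := Ioi m ∩ (A'' ∩ (Ag ∪ Y' ∪ T)) with hA₁def
  have hA₁ : Big o U θ A₁ := (Big.tail H hm).inter (hA''B.inter hAYT)
  refine ⟨A₁, hA₁, Y', fun y hy => hy.1.1, hY'U, fun y hy => hy.2, fun x hx => hx.1, ?_⟩
  intro u hu
  have hbu : Below θ u := fun α hα => (hu α hα).trans_lt hm
  refine ⟨fun q hq => ?_, fun q hq y hy hyq => ?_⟩
  · have hqθ : θ ∈ q.dom := hq.1 (cat_top hbu).1
    obtain ⟨r, hr, y, hyr, hyY, _⟩ := insert_in H hqθ hγ hY'U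
    exact ⟨r, hr, y, hyr, hyY⟩
  · by_cases hcase : ∃ z ∈ q.dom, m < z ∧ z < y ∧ z ∈ Y' ∪ T
    · obtain ⟨z, hzq, hmz, hzy, hz⟩ := hcase
      rcases hz with hz | hz
      · exact ⟨q, le_rfl, Or.inr ⟨z, hzq, hz, hzy⟩⟩
      · obtain ⟨j, hj, hjY⟩ := hz
        obtain ⟨r, hr, y', hy'r, hy'Y, hy'z⟩ := insert_in H hzq hj hjY
        exact ⟨r, hr, Or.inr ⟨y', hy'r, hy'Y, hy'z.trans hzy⟩⟩
    · push Not at hcase
      have hqt : q ∈ TopC o U θ := TopC_comp _ (cat_top hbu) q hq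
      have hgt : ∀ α ∈ q.dom, m < α → α ≤ θ ∧ q.S α ⊆ A₁ ∧ (α = θ ∨ α ∈ A₁) :=
        fun α hα hmα => le_cat_gt hq hu hα hmα
      have hmy : m < y := hy.2.1
      have hyθ : y < θ := hy.2.2
      have hf : ∀ α ∈ q.dom, Big o U α
          (if α ≤ m then q.S α else if α ≤ y then q.S α ∩ E y else q.S α ∩ Ioi y) := by
        intro α hα
        by_cases h1 : α ≤ m
        · rw [if_pos h1]
          exact q.big hα
        · rw [if_neg h1]
          have hmα := not_le.1 h1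
          by_cases h2 : α ≤ y
          · rw [if_pos h2]
            rcases h2.eq_or_lt with h3 | h3
            · subst h3
              exact (q.big hα).inter (hE α)
            · have hnT : α ∉ T := fun h => hcase α hα hmα h3 (Or.inr h)
              have := hBig α (q.S α) hnT (q.big hα)
                (fun x hx => ((hgt α hα hmα).2.1 hx).2.2)
              refine this.mono ?_
              rintro x ⟨hx1, hx2⟩
              exact ⟨hx1, (hY'E y hy x ((show x < α from q.sub α hx1).trans h3)).2 hx2⟩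
          · rw [if_neg h2]
            exact (q.big hα).inter (Big.tail H (not_le.1 h2))
      set r : Cnd o U := mkC H q.dom _ hf with hr
      have hrd : r.dom = q.dom := rfl
      have hrS1 : ∀ α ∈ q.dom, m < α → α ≤ y → r.S α ⊆ E y := by
        intro α hα h1 h2 x hx
        rw [hr, mkC_S _ _ _ _ hα, if_neg (not_le.2 h1), if_pos h2] at hx
        exact hx.1.2
      have hrS2 : ∀ α ∈ q.dom, y < α → r.S α ⊆ Ioi y := by
        intro α hα h2 x hx
        rw [hr, mkC_S _ _ _ _ hα, if_neg (not_le.2 (hmy.trans h2)), if_neg (not_le.2 h2)] at hx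
        exact hx.1.2
      have hrq : r ≤ q := by
        refine le_of_same_dom rfl fun α hα => ?_
        rw [hr, mkC_S _ _ _ _ hα]
        by_cases h1 : α ≤ m
        · rw [if_pos h1]
          exact inter_subset_left
        · rw [if_neg h1]
          by_cases h2 : α ≤ y
          · rw [if_pos h2]
            exact fun x hx => hx.1.1
          · rw [if_neg h2]
            exact fun x hx => hx.1.1
      refine ⟨r, hrq, Or.inl ?_⟩
      have hrt : r ∈ TopC o U θ := TopC_comp q hqt r hrq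
      have hcaty : ∀ α ∈ (cat H y u (E y) (hE y)).dom, α ≤ y := by
        intro α hα
        rw [mem_cat] at hα
        rcases hα with rfl | hα
        · exact le_rfl
        · exact (hu α hα).trans hmy.le
      refine le_cat_intro (μ := y) hrt ?_ hcaty hyθ ?_
      · refine le_cat_intro (μ := m) ⟨?_, rst_Iic_le⟩ ?_ hu hmy ?_
        · exact mem_rst.2 ⟨hyq, mem_Iic.2 le_rfl⟩
        · have e : rst (rst r (Iic y)) (Iic m) = rst r (Iic m) := by
            rw [rst_rst]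
            refine rst_congr fun α _ => ?_
            exact ⟨fun h => h.2, fun h => ⟨(show α ≤ m from h).trans hmy.le, h⟩⟩
          rw [e]
          exact le_cat_rst (hrq.trans hq) hu hm fun x hx => hx.1
        · intro α hα hmα
          rw [mem_rst] at hα
          rw [rst_S hα.2]
          refine ⟨hrS1 α hα.1 hmα hα.2, ?_⟩
          rcases (show α ≤ y from hα.2).eq_or_lt with h | h
          · exact Or.inl h
          · right
            have hαq : α ∈ q.dom := hα.1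
            have hn : α ∉ Y' ∪ T := hcase α hαq hmα h
            have h1 := (hgt α hαq hmα).2.2
            rcases h1 with h1 | h1
            · exact absurd h1 (h.trans hyθ).ne
            · rcases h1.2.2 with h2 | h2
              · rcases h2 with h2 | h2
                · exact (hY'E y hy α h).2 h2
                · exact absurd (Or.inl h2) hn
              · exact absurd (Or.inr h2) hn
      · intro α hα hyα
        have hαq : α ∈ q.dom := hα
        obtain ⟨h1, h2, h3⟩ := hgt α hαq (hmy.trans hyα)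
        refine ⟨?_, h3.imp id fun h => h.2.1 y hyα⟩
        intro x hx
        have hxy : y < x := hrS2 α hαq hyα hx
        have hxq : x ∈ q.S α := by
          rw [hr, mkC_S _ _ _ _ hαq, if_neg (not_le.2 (hmy.trans hyα)),
            if_neg (not_le.2 hyα)] at hx
          exact hx.1.1
        exact (h2 hxq).2.1 y hxy

/-- the glue lemma, third form -/
theorem glue_dense {Y' : Set Ordinal.{u}} {p : Cnd o U} {R : Ordinal.{u} → Cnd o U → Prop}
    (h1 : ∀ q ≤ p, ∃ r ≤ q, ∃ y ∈ r.dom, y ∈ Y')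
    (h2 : ∀ q ≤ p, ∀ y ∈ Y', y ∈ q.dom → ∃ r ≤ q, R y r ∨ ∃ y' ∈ r.dom, y' ∈ Y' ∧ y' < y)
    {q : Cnd o U} (hq : q ≤ p) : ∃ r ≤ q, ∃ y ∈ Y', R y r := by
  have key : ∀ y : Ordinal.{u}, ∀ q ≤ p, y ∈ Y' → y ∈ q.dom → ∃ r ≤ q, ∃ y ∈ Y', R y r := by
    intro y
    induction y using WellFoundedLT.induction with
    | ind y ih =>
      intro q hq hy hyq
      obtain ⟨r, hr, h | ⟨y', hy'r, hy'Y, hlt⟩⟩ := h2 q hq y hy hyq
      · exact ⟨r, hr, y, hy, h⟩
      · obtain ⟨s, hs, z, hz, hR⟩ := ih y' hlt r (hr.trans hq) hy'Y hy'r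
        exact ⟨s, hs.trans hr, z, hz, hR⟩
  obtain ⟨r, hr, y, hyr, hyY⟩ := h1 q hq
  obtain ⟨s, hs, z, hz, hR⟩ := key y r (hr.trans hq) hyY hyr
  exact ⟨s, hs.trans hr, z, hz, hR⟩

end MagRad
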