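import Pool.Agent.MagRad.Defs

/-!
# Measure lemmas
-/

namespace MagRad

universe u

open Set

section Normal

variable {θ : Ordinal.{u}} {W : Ultrafilter Ordinal.{u}}

theorem um_mono {s t : Set Ordinal.{u}} (h : s ∈ W) (hst : s ⊆ t) : t ∈ W :=
  Filter.mem_of_superset h hst

theorem um_inter {s t : Set Ordinal.{u}} (h : s ∈ W) (h' : t ∈ W) : s ∩ t ∈ W :=
  Filter.inter_mem h h'

theorem um_ne {s : Set Ordinal.{u}} (h : s ∈ W) : ∃ x, x ∈ s := W.nonempty_of_mem h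

theorem um_not {s : Set Ordinal.{u}} (h : s ∉ W) : sᶜ ∈ W := Ultrafilter.compl_mem_iff_notMem.2 h

theorem um_not_setOf {p : Ordinal.{u} → Prop} (h : {x | p x} ∉ W) : {x | ¬ p x} ∈ W :=
  Ultrafilter.compl_mem_iff_notMem.2 h

theorem um_iff {s : Set Ordinal.{u}} : sᶜ ∈ W ↔ s ∉ W := Ultrafilter.compl_mem_iff_notMem

theorem um_or {s t : Set Ordinal.{u}} (h : s ∪ t ∈ W) : s ∈ W ∨ t ∈ W :=
  Ultrafilter.union_mem_iff.1 h

/-- regressive functions are constant almost everywhere -/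
theorem press (hW : IsNormalMeasure θ W) {g : Ordinal.{u} → Ordinal.{u}}
    (hg : {z | g z < z} ∈ W) : ∃ ξ < θ, {z | g z = ξ} ∈ W := by
  by_contra hcon
  push Not at hcon
  have h1 : ∀ ξ < θ, {z | ¬ g z = ξ} ∈ W := fun ξ hξ => um_not_setOf (hcon ξ hξ)
  have h2 := hW.diag (fun ξ => {z | ¬ g z = ξ}) h1
  obtain ⟨z, hz1, hz2⟩ := um_ne (um_inter h2 hg)
  exact hz1 (g z) hz2 rfl

theorem complete_le (hW : IsNormalMeasure θ W) {μ : Ordinal.{u}} (hμ : μ < θ)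
    {Q : Ordinal.{u} → Ordinal.{u} → Prop} (h : ∀ ξ ≤ μ, {z | Q ξ z} ∈ W) :
    {z | ∀ ξ ≤ μ, Q ξ z} ∈ W := by
  have h1 : ∀ ξ < θ, {z | ξ ≤ μ → Q ξ z} ∈ W := by
    intro ξ _
    by_cases hξ : ξ ≤ μ
    · exact um_mono (h ξ hξ) fun z hz _ => hz
    · exact um_mono (W.univ_mem) fun z _ h => absurd h hξ
  have h2 := hW.diag (fun ξ => {z | ξ ≤ μ → Q ξ z}) h1
  refine um_mono (um_inter h2 (hW.tail μ hμ)) ?_
  rintro z ⟨hz1, hz2⟩ ξ hξ
  exact hz1 ξ (lt_of_le_of_lt hξ hz2) hξ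

theorem decided (p : Ordinal.{u} → Prop) : ∃ d : Prop, {z | p z ↔ d} ∈ W := by
  by_cases h : {z | p z} ∈ W
  · exact ⟨True, um_mono h fun z hz => by simpa using hz⟩
  · exact ⟨False, um_mono (um_not_setOf h) fun z hz => by simpa using hz⟩

theorem theta_pos (hW : IsNormalMeasure θ W) : 0 < θ := by
  obtain ⟨z, hz⟩ := um_ne hW.conc
  exact lt_of_le_of_lt zero_le hz

end Normal

section Stems

variable {o : Ordinal.{u} → Ordinal.{u}} {U : Ordinal.{u} → Ordinal.{u} → Ultrafilter Ordinal.{u}}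
variable {θ : Ordinal.{u}} {W : Ultrafilter Ordinal.{u}}

theorem Cnd.ext' {p q : Cnd o U} (h1 : p.dom = q.dom) (h2 : ∀ α ∈ p.dom, p.S α = q.S α) :
    p = q := by
  have h3 : p.S = q.S := by
    funext α
    by_cases hα : α ∈ p.dom
    · exact h2 α hα
    · rw [p.off α hα, q.off α (h1 ▸ hα)]
  cases p
  cases q
  simp only at h1 h3
  subst h1
  subst h3
  rfl

/-- a function with bounded values is constant almost everywhere -/
theorem const_stem (hW : IsNormalMeasure θ W) {μ : Ordinal.{u}} (hμ : μ < θ)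
    {f : Ordinal.{u} → Cnd o U} (hf : {y | ∀ α ∈ (f y).dom, α ≤ μ} ∈ W) :
    ∃ w : Cnd o U, {y | f y = w} ∈ W := by
  have hd : ∀ α : Ordinal.{u}, ∃ d : Prop, {y | α ∈ (f y).dom ↔ d} ∈ W := fun α => decided _
  choose d hd using hd
  have hs : ∀ α ζ : Ordinal.{u}, ∃ s : Prop, {y | ζ ∈ (f y).S α ↔ s} ∈ W := fun α ζ => decided _
  choose s hs using hs
  have h1 : {y | ∀ α ≤ μ, (α ∈ (f y).dom ↔ d α)} ∈ W :=
    complete_le hW hμ (Q := fun α y => (α ∈ (f y).dom ↔ d α)) fun α _ => hd α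
  have h2 : {y | ∀ α ≤ μ, ∀ ζ ≤ μ, (ζ ∈ (f y).S α ↔ s α ζ)} ∈ W := by
    refine complete_le hW hμ (Q := fun α y => ∀ ζ ≤ μ, (ζ ∈ (f y).S α ↔ s α ζ)) fun α _ => ?_
    exact complete_le hW hμ (Q := fun ζ y => (ζ ∈ (f y).S α ↔ s α ζ)) fun ζ _ => hs α ζ
  have h3 := um_inter hf (um_inter h1 h2)
  obtain ⟨y0, hy0⟩ := um_ne h3
  refine ⟨f y0, um_mono h3 ?_⟩
  rintro y hy
  obtain ⟨a0, b0, c0⟩ := hy0
  obtain ⟨a, b, c⟩ := hy
  simp only [mem_ofPred_eq] at a0 b0 c0 a b c ⊢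
  have hdom : (f y).dom = (f y0).dom := by
    ext α
    by_cases hα : α ≤ μ
    · rw [b α hα, b0 α hα]
    · exact ⟨fun h => absurd (a α h) hα, fun h => absurd (a0 α h) hα⟩
  refine Cnd.ext' hdom fun α hα => ?_
  have hαμ := a α hα
  ext ζ
  by_cases hζ : ζ ≤ μ
  · rw [c α hαμ ζ hζ, c0 α hαμ ζ hζ]
  · have hζα : ¬ ζ < α := fun h => hζ (h.le.trans hαμ)
    exact ⟨fun h => absurd ((f y).sub α h) hζα, fun h => absurd ((f y0).sub α h) hζα⟩

theorem all_stem (hW : IsNormalMeasure θ W) {μ : Ordinal.{u}} (hμ : μ < θ)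
    {Q : Cnd o U → Ordinal.{u} → Prop} (h : ∀ w : Cnd o U, (∀ α ∈ w.dom, α ≤ μ) → {z | Q w z} ∈ W) :
    {z | ∀ w : Cnd o U, (∀ α ∈ w.dom, α ≤ μ) → Q w z} ∈ W := by
  by_contra hcon
  have h1 := um_not_setOf hcon
  have h2 : ∀ z : Ordinal.{u}, ∃ w : Cnd o U,
      (¬ ∀ w : Cnd o U, (∀ α ∈ w.dom, α ≤ μ) → Q w z) → (∀ α ∈ w.dom, α ≤ μ) ∧ ¬ Q w z := by
    intro z
    by_cases hz : ∀ w : Cnd o U, (∀ α ∈ w.dom, α ≤ μ) → Q w z
    · by_cases hne : Nonempty (Cnd o U)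
      · exact ⟨hne.some, fun h => absurd hz h⟩
      · exact (hne ⟨⟨∅, fun _ => ∅, fun _ => empty_subset _, fun _ _ => rfl, by simp⟩⟩).elim
    · push Not at hz
      obtain ⟨w, hw, hQ⟩ := hz
      exact ⟨w, fun _ => ⟨hw, hQ⟩⟩
  choose f hf using h2
  obtain ⟨w, hw⟩ := const_stem hW hμ (f := f) (um_mono h1 fun z hz => (hf z hz).1)
  obtain ⟨z, hz1, hz2⟩ := um_ne (um_inter h1 hw)
  have hwb : ∀ α ∈ w.dom, α ≤ μ := by
    have := (hf z hz1).1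
    rw [hz2] at this
    exact this
  obtain ⟨z, ⟨hz1, hz2⟩, hz3⟩ := um_ne (um_inter (um_inter h1 hw) (h w hwb))
  have := (hf z hz1).2
  rw [hz2] at this
  exact this hz3

/-- families of stems: constant almost everywhere -/
theorem const_fam (hW : IsNormalMeasure θ W) {μ : Ordinal.{u}} (hμ : μ < θ)
    {f : Ordinal.{u} → Set (Cnd o U)} (hf : {y | ∀ w ∈ f y, ∀ α ∈ w.dom, α ≤ μ} ∈ W) :
    ∃ D : Set (Cnd o U), {y | f y = D} ∈ W := by
  have hd : ∀ w : Cnd o U, ∃ d : Prop, {y | w ∈ f y ↔ d} ∈ W := fun w => decided _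
  choose d hd using hd
  have h1 : {y | ∀ w : Cnd o U, (∀ α ∈ w.dom, α ≤ μ) → (w ∈ f y ↔ d w)} ∈ W :=
    all_stem hW hμ (Q := fun w y => (w ∈ f y ↔ d w)) fun w _ => hd w
  have h3 := um_inter hf h1
  obtain ⟨y0, hy0⟩ := um_ne h3
  refine ⟨f y0, um_mono h3 ?_⟩
  rintro y hy
  obtain ⟨a0, b0⟩ := hy0
  obtain ⟨a, b⟩ := hy
  simp only [mem_ofPred_eq] at a0 b0 a b ⊢
  ext w
  by_cases hw : ∀ α ∈ w.dom, α ≤ μ
  · rw [b w hw, b0 w hw]
  · exact ⟨fun h => absurd (a w h) hw, fun h => absurd (a0 w h) hw⟩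

theorem all_fam (hW : IsNormalMeasure θ W) {μ : Ordinal.{u}} (hμ : μ < θ)
    {Q : Set (Cnd o U) → Ordinal.{u} → Prop}
    (h : ∀ D : Set (Cnd o U), (∀ w ∈ D, ∀ α ∈ w.dom, α ≤ μ) → {z | Q D z} ∈ W) :
    {z | ∀ D : Set (Cnd o U), (∀ w ∈ D, ∀ α ∈ w.dom, α ≤ μ) → Q D z} ∈ W := by
  by_contra hcon
  have h1 := um_not_setOf hcon
  have h2 : ∀ z : Ordinal.{u}, ∃ D : Set (Cnd o U),
      (¬ ∀ D : Set (Cnd o U), (∀ w ∈ D, ∀ α ∈ w.dom, α ≤ μ) → Q D z) →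
        (∀ w ∈ D, ∀ α ∈ w.dom, α ≤ μ) ∧ ¬ Q D z := by
    intro z
    by_cases hz : ∀ D : Set (Cnd o U), (∀ w ∈ D, ∀ α ∈ w.dom, α ≤ μ) → Q D z
    · exact ⟨∅, fun h => absurd hz h⟩
    · push Not at hz
      obtain ⟨w, hw, hQ⟩ := hz
      exact ⟨w, fun _ => ⟨hw, hQ⟩⟩
  choose f hf using h2
  obtain ⟨w, hw⟩ := const_fam hW hμ (f := f) (um_mono h1 fun z hz => (hf z hz).1)
  obtain ⟨z, hz1, hz2⟩ := um_ne (um_inter h1 hw)
  have hwb : ∀ v ∈ w, ∀ α ∈ v.dom, α ≤ μ := by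
    have := (hf z hz1).1
    rw [hz2] at this
    exact this
  obtain ⟨z, ⟨hz1, hz2⟩, hz3⟩ := um_ne (um_inter (um_inter h1 hw) (h w hwb))
  have := (hf z hz1).2
  rw [hz2] at this
  exact this hz3

/-- all points of `w` are below `z` -/
def Below (z : Ordinal.{u}) (w : Cnd o U) : Prop := ∀ α ∈ w.dom, α < z

/-- bounded by some ordinal below `z` -/
theorem Below.bound {z : Ordinal.{u}} {w : Cnd o U} (hz : 0 < z) (h : Below z w) :
    ∃ μ < z, ∀ α ∈ w.dom, α ≤ μ := by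
  by_cases hne : w.dom.Nonempty
  · exact ⟨w.dom.max' hne, h _ (w.dom.max'_mem hne), fun α hα => w.dom.le_max' α hα⟩
  · rw [Finset.not_nonempty_iff_eq_empty] at hne
    exact ⟨0, hz, fun α hα => by rw [hne] at hα; simp at hα⟩

/-- a regressive choice of stems is constant almost everywhere -/
theorem press_stem (hW : IsNormalMeasure θ W)
    {f : Ordinal.{u} → Cnd o U} (hf : {y | Below y (f y)} ∈ W) :
    ∃ w : Cnd o U, Below θ w ∧ {y | f y = w} ∈ W := by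
  have hpos := theta_pos hW
  have hf' := um_inter hf (hW.tail 0 hpos)
  have hb : ∀ y : Ordinal.{u}, ∃ μ : Ordinal.{u}, y ∈ ({y | Below y (f y)} ∩ Ioi 0) →
      μ < y ∧ ∀ α ∈ (f y).dom, α ≤ μ := by
    intro y
    by_cases hy : y ∈ ({y | Below y (f y)} ∩ Ioi 0)
    · obtain ⟨μ, h1, h2⟩ := Below.bound hy.2 hy.1
      exact ⟨μ, fun _ => ⟨h1, h2⟩⟩
    · exact ⟨0, fun h => absurd h hy⟩
  choose g hg using hb
  obtain ⟨μ, hμ, hμW⟩ := press hW (g := g) (um_mono hf' fun y hy => (hg y hy).1)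
  obtain ⟨w, hw⟩ := const_stem hW hμ (f := f) (um_mono (um_inter hf' hμW) fun y hy => by
    have := (hg y hy.1).2
    have e : g y = μ := hy.2
    rw [e] at this
    exact this)
  refine ⟨w, ?_, hw⟩
  obtain ⟨y, ⟨⟨hy1, hy2⟩, hy3⟩⟩ := um_ne (um_inter (um_inter hf hw) hW.conc)
  intro α hα
  have e : f y = w := hy2
  rw [← e] at hα
  exact (hy1 α hα).trans hy3

theorem diag_stem (hW : IsNormalMeasure θ W)
    {Q : Cnd o U → Ordinal.{u} → Prop} (h : ∀ w : Cnd o U, Below θ w → {z | Q w z} ∈ W) :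
    {z | ∀ w : Cnd o U, Below z w → Q w z} ∈ W := by
  by_contra hcon
  have h1 := um_not_setOf hcon
  have h2 : ∀ z : Ordinal.{u}, ∃ w : Cnd o U,
      (¬ ∀ w : Cnd o U, Below z w → Q w z) → Below z w ∧ ¬ Q w z := by
    intro z
    by_cases hz : ∀ w : Cnd o U, Below z w → Q w z
    · exact ⟨⟨∅, fun _ => ∅, fun _ => empty_subset _, fun _ _ => rfl, by simp⟩,
        fun h => absurd hz h⟩
    · push Not at hz
      obtain ⟨w, hw, hQ⟩ := hz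
      exact ⟨w, fun _ => ⟨hw, hQ⟩⟩
  choose f hf using h2
  obtain ⟨w, hwb, hw⟩ := press_stem hW (f := f) (um_mono h1 fun z hz => (hf z hz).1)
  obtain ⟨z, ⟨hz1, hz2⟩, hz3⟩ := um_ne (um_inter (um_inter h1 hw) (h w hwb))
  have := (hf z hz1).2
  rw [hz2] at this
  exact this hz3

end Stems

section Big

variable {κ : Ordinal.{u}}
variable {o : Ordinal.{u} → Ordinal.{u}} {U : Ordinal.{u} → Ordinal.{u} → Ultrafilter Ordinal.{u}}

/-- measure one for all the measures on `θ` -/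
def Big (o : Ordinal.{u} → Ordinal.{u}) (U : Ordinal.{u} → Ordinal.{u} → Ultrafilter Ordinal.{u})
    (θ : Ordinal.{u}) (A : Set Ordinal.{u}) : Prop := ∀ γ < o θ, A ∈ U θ γ

variable {θ : Ordinal.{u}}

theorem Big.mono {A B : Set Ordinal.{u}} (h : Big o U θ A) (hAB : A ⊆ B) : Big o U θ B :=
  fun γ hγ => um_mono (h γ hγ) hAB

theorem Big.inter {A B : Set Ordinal.{u}} (h : Big o U θ A) (h' : Big o U θ B) :
    Big o U θ (A ∩ B) := fun γ hγ => um_inter (h γ hγ) (h' γ hγ)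

theorem Big.univ : Big o U θ Set.univ := fun γ _ => (U θ γ).univ_mem

theorem Big.tail (H : IsCoherent κ o U) {ξ : Ordinal.{u}} (hξ : ξ < θ) :
    Big o U θ (Ioi ξ) := fun γ hγ => (H.normal θ γ hγ).tail ξ hξ

theorem Big.iio (H : IsCoherent κ o U) : Big o U θ (Iio θ) :=
  fun γ hγ => (H.normal θ γ hγ).conc

/-- reflection -/
theorem Big.reflect (H : IsCoherent κ o U) {A : Set Ordinal.{u}} (h : Big o U θ A)
    {γ : Ordinal.{u}} (hγ : γ < o θ) : {ν | Big o U ν A} ∈ U θ γ := by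
  obtain ⟨F, hF1, hF2, hF3, hF4⟩ := H.coh θ γ hγ
  by_contra hcon
  have h1 := um_not_setOf hcon
  have h2 : ∀ ν : Ordinal.{u}, ∃ i, (¬ Big o U ν A) → i < o ν ∧ A ∉ U ν i := by
    intro ν
    by_cases hν : Big o U ν A
    · exact ⟨0, fun h => absurd hν h⟩
    · unfold Big at hν
      push Not at hν
      obtain ⟨i, hi, hA⟩ := hν
      exact ⟨i, fun _ => ⟨hi, hA⟩⟩
  choose g hg using h2
  obtain ⟨i, hi, hgi⟩ := hF3 g (um_mono h1 fun ν hν => (hg ν hν).1)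
  have h3 : {ν | A ∈ U ν (F i ν)} ∈ U θ γ := (hF4 i hi A).1 (h i (hi.trans hγ))
  obtain ⟨ν, ⟨hν1, hν2⟩, hν3⟩ := um_ne (um_inter (um_inter h1 hgi) h3)
  have := (hg ν hν1).2
  rw [hν2] at this
  exact this hν3

end Big

end MagRad
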