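import Pool.Agent.MagRad.Glue

/-!
# The Prikry property at the top
-/

namespace MagRad

universe u

open Set

variable {κ : Ordinal.{u}}
variable {o : Ordinal.{u} → Ordinal.{u}} {U : Ordinal.{u} → Ordinal.{u} → Ultrafilter Ordinal.{u}}

/-- induction along the points of a condition -/
theorem stem_induction {q : Cnd o U} {μ θ : Ordinal.{u}} {Φ : Cnd o U → Prop}
    (h0 : Φ (rst q (Iic μ)))
    (hs : ∀ z ∈ q.dom, μ < z → z < θ → Φ (rst q (Iio z)) → Φ (rst q (Iic z))) :
    ∀ η, μ < η → η ≤ θ → Φ (rst q (Iio η)) := by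
  intro η
  induction η using WellFoundedLT.induction with
  | ind η ih =>
    intro hμη hηθ
    classical
    by_cases hne : (q.dom.filter (fun α => μ < α ∧ α < η)).Nonempty
    · set z := (q.dom.filter (fun α => μ < α ∧ α < η)).max' hne with hz
      have hzm := (q.dom.filter (fun α => μ < α ∧ α < η)).max'_mem hne
      rw [← hz, Finset.mem_filter] at hzm
      obtain ⟨hzq, hμz, hzη⟩ := hzm
      have e : rst q (Iio η) = rst q (Iic z) := by
        refine rst_congr fun α hα => ?_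
        rw [mem_Iio, mem_Iic]
        constructor
        · intro h
          by_cases hμα : μ < α
          · exact Finset.le_max' _ α (Finset.mem_filter.2 ⟨hα, hμα, h⟩)
          · exact (not_lt.1 hμα).trans hμz.le
        · intro h
          exact h.trans_lt hzη
      rw [e]
      exact hs z hzq hμz (hzη.trans_le hηθ) (ih z hzη hμz (hzη.le.trans hηθ))
    · have e : rst q (Iio η) = rst q (Iic μ) := by
        refine rst_congr fun α hα => ?_
        rw [mem_Iio, mem_Iic]
        constructor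
        · intro h
          by_contra hcon
          exact hne ⟨α, Finset.mem_filter.2 ⟨hα, not_le.1 hcon, h⟩⟩
        · intro h
          exact h.trans_lt hμη
      rw [e]
      exact h0

/-- `v` decides `b` with a suitable set at the top -/
def Good (H : IsCoherent κ o U) (θ : Ordinal.{u}) (b : Set (Cnd o U)) (v : Cnd o U) : Prop :=
  ∃ (A : Set Ordinal.{u}) (hA : Big o U θ A),
    cat H θ v A hA ∈ b ∨ cat H θ v A hA ∈ nega (TopC o U θ) b

variable {H : IsCoherent κ o U} {θ : Ordinal.{u}} {b : Set (Cnd o U)}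

theorem Good.mono (hb : IsReg (TopC o U θ) b) {v v' : Cnd o U} (hv : Below θ v) (h : v' ≤ v)
    (hg : Good H θ b v) : Good H θ b v' := by
  obtain ⟨A, hA, h'⟩ := hg
  refine ⟨A, hA, ?_⟩
  have hle : cat H θ v' A hA ≤ cat H θ v A hA := cat_le h hv (fun x hx => hx)
  rcases h' with h' | h'
  · exact Or.inl (hb.down _ h' _ hle)
  · exact Or.inr ((nega_reg TopC_comp hb.down).down _ h' _ hle)

/-- if almost all one point extensions of `v` force `b` so does `v` -/
theorem glue_mem (hb : IsReg (TopC o U θ) b) {v : Cnd o U} (hv : Below θ v) {γ : Ordinal.{u}}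
    (hγ : γ < o θ) {Y : Set Ordinal.{u}} (hY : Y ∈ U θ γ)
    (E : Ordinal.{u} → Set Ordinal.{u}) (hE : ∀ y, Big o U y (E y))
    (A' : Ordinal.{u} → Set Ordinal.{u}) (hA' : ∀ y, Big o U θ (A' y))
    (h : ∀ y ∈ Y, cat H θ (cat H y v (E y) (hE y)) (A' y) (hA' y) ∈ b) :
    ∃ (A : Set Ordinal.{u}) (hA : Big o U θ A), cat H θ v A hA ∈ b := by
  have hpos := theta_pos (H.normal θ γ hγ)
  obtain ⟨m, hm, hmv⟩ := hv.bound hpos
  obtain ⟨A₁, hA₁, Y', hY'Y, _, _, _, hmain⟩ := glue H hγ hm hY E hE A' hA'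
  obtain ⟨h1, h2⟩ := hmain v hmv
  refine ⟨A₁, hA₁, hb.dense _ (cat_top hv) fun q hq => ?_⟩
  obtain ⟨r, hr, y, hy, hR⟩ := glue_dense
    (R := fun y r => r ≤ cat H θ (cat H y v (E y) (hE y)) (A' y) (hA' y)) h1
    (fun q hq y hy hyq => by
      obtain ⟨r, hr, h'⟩ := h2 q hq y hy hyq
      exact ⟨r, hr, h'⟩) hq
  exact ⟨r, hr, hb.down _ (h y (hY'Y hy)) _ hR⟩

theorem not_good_big (hb : IsReg (TopC o U θ) b) {v : Cnd o U} (hv : Below θ v)
    (hng : ¬ Good H θ b v) :
    Big o U θ {z | ∀ (C : Set Ordinal.{u}) (hC : Big o U z C), ¬ Good H θ b (cat H z v C hC)} := by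
  intro γ hγ
  by_contra hcon
  have h1 := um_not_setOf hcon
  have hex : ∀ z : Ordinal.{u}, ∃ (C : Set Ordinal.{u}) (hC : Big o U z C)
      (A : Set Ordinal.{u}) (hA : Big o U θ A),
      (¬ ∀ (C : Set Ordinal.{u}) (hC : Big o U z C), ¬ Good H θ b (cat H z v C hC)) →
      cat H θ (cat H z v C hC) A hA ∈ b ∨
        cat H θ (cat H z v C hC) A hA ∈ nega (TopC o U θ) b := by
    intro z
    by_cases hz : ∀ (C : Set Ordinal.{u}) (hC : Big o U z C), ¬ Good H θ b (cat H z v C hC)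
    · exact ⟨univ, Big.univ, univ, Big.univ, fun h => absurd hz h⟩
    · push Not at hz
      obtain ⟨C, hC, A, hA, h⟩ := hz
      exact ⟨C, hC, A, hA, fun _ => h⟩
  choose E hE A' hA' hEA using hex
  have h2 : {z | cat H θ (cat H z v (E z) (hE z)) (A' z) (hA' z) ∈ b} ∪
      {z | cat H θ (cat H z v (E z) (hE z)) (A' z) (hA' z) ∈ nega (TopC o U θ) b} ∈ U θ γ :=
    um_mono h1 fun z hz => hEA z hz
  rcases um_or h2 with h2 | h2
  · obtain ⟨A, hA, h⟩ := glue_mem hb hv hγ h2 E hE A' hA' fun y hy => hy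
    exact hng ⟨A, hA, Or.inl h⟩
  · obtain ⟨A, hA, h⟩ := glue_mem (nega_reg TopC_comp hb.down) hv hγ h2 E hE A' hA'
      fun y hy => hy
    exact hng ⟨A, hA, Or.inr h⟩

/-- The Prikry property at the top point. -/
theorem prikry (H : IsCoherent κ o U) (hb : IsReg (TopC o U θ) b) {w : Cnd o U}
    {μ : Ordinal.{u}} (hμ : μ < θ) (hw : ∀ α ∈ w.dom, α ≤ μ) : ∃ w₁ ≤ w, Good H θ b w₁ := by
  by_contra hcon
  push Not at hcon
  have hbw : Below θ w := fun α hα => (hw α hα).trans_lt hμ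
  set N : Set Ordinal.{u} := {z | ∀ v : Cnd o U, Below z v → (¬ Good H θ b v →
    ∀ (C : Set Ordinal.{u}) (hC : Big o U z C), ¬ Good H θ b (cat H z v C hC))} with hN
  have hNB : Big o U θ N := by
    intro γ hγ
    refine diag_stem (H.normal θ γ hγ) (Q := fun v z => ¬ Good H θ b v →
      ∀ (C : Set Ordinal.{u}) (hC : Big o U z C), ¬ Good H θ b (cat H z v C hC)) fun v hv => ?_
    by_cases hg : Good H θ b v
    · exact um_mono (U θ γ).univ_mem fun z _ h => absurd hg h
    · exact um_mono (not_good_big hb hv hg γ hγ) fun z hz _ => hz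
  have hNμ : Big o U θ (N ∩ Ioi μ) := hNB.inter (Big.tail H hμ)
  have hdense : ∃ q ≤ cat H θ w (N ∩ Ioi μ) hNμ, q ∈ b ∨ q ∈ nega (TopC o U θ) b := by
    by_cases h : ∃ q ≤ cat H θ w (N ∩ Ioi μ) hNμ, q ∈ b
    · obtain ⟨q, hq, hqb⟩ := h
      exact ⟨q, hq, Or.inl hqb⟩
    · push Not at h
      exact ⟨_, le_rfl, Or.inr ⟨cat_top hbw, h⟩⟩
  obtain ⟨q, hq, hqb⟩ := hdense
  have hqt : q ∈ TopC o U θ := TopC_comp _ (cat_top hbw) q hq
  have hgood : Good H θ b (rst q (Iio θ)) := by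
    refine ⟨q.S θ, q.big hqt.1, ?_⟩
    rw [← top_eq_cat (H := H) hqt]
    exact hqb
  refine stem_induction (Φ := fun v => ¬ Good H θ b v) (q := q) (μ := μ) (θ := θ) ?_ ?_ θ hμ le_rfl
    hgood
  · exact hcon _ (le_cat_rst hq hw hμ fun x hx => hx.2)
  · intro z hz hμz hzθ hng
    rw [rst_Iic_eq_cat (H := H) hz]
    have hzN : z ∈ N := by
      rcases (le_cat_gt hq hw hz hμz).2.2 with h | h
      · exact absurd h hzθ.ne
      · exact h.1
    exact hzN _ below_rst hng _ _

end MagRad
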