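import Pool.Agent.MagRad.Prikry

/-!
# Separation of stems, the characteristic sets
-/

namespace MagRad

universe u

open Set

variable {κ : Ordinal.{u}}
variable {o : Ordinal.{u} → Ordinal.{u}} {U : Ordinal.{u} → Ordinal.{u} → Ultrafilter Ordinal.{u}}

/-- separation of two stems by an element of `ℬ` -/
def Sep (H : IsCoherent κ o U) (θ : Ordinal.{u}) (ℬ : Set (Set (Cnd o U))) (w w' : Cnd o U) :
    Prop :=
  ∃ (A : Set Ordinal.{u}) (hA : Big o U θ A), ∃ b ∈ ℬ, cat H θ w A hA ∈ b ∧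
    cat H θ w' A hA ∈ nega (TopC o U θ) b

variable {H : IsCoherent κ o U} {θ : Ordinal.{u}} {ℬ : Set (Set (Cnd o U))}

theorem sep_of (hfam : IsFam (TopC o U θ) ℬ) {w w' : Cnd o U} (hw : Below θ w)
    (hw' : Below θ w') {b : Set (Cnd o U)} (hb : b ∈ ℬ) {A A' : Set Ordinal.{u}}
    {hA : Big o U θ A} {hA' : Big o U θ A'} (h : cat H θ w A hA ∈ b)
    (h' : cat H θ w' A' hA' ∈ nega (TopC o U θ) b) : Sep H θ ℬ w w' := by
  refine ⟨A ∩ A', hA.inter hA', b, hb, ?_, ?_⟩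
  · exact (hfam.reg b hb).down _ h _ (cat_le le_rfl hw fun x hx => hx.1)
  · exact (nega_reg TopC_comp (hfam.reg b hb).down).down _ h' _ (cat_le le_rfl hw' fun x hx => hx.2)

theorem Sep.symm (hfam : IsFam (TopC o U θ) ℬ) {w w' : Cnd o U} (h : Sep H θ ℬ w w') :
    Sep H θ ℬ w' w := by
  obtain ⟨A, hA, b, hb, h1, h2⟩ := h
  exact ⟨A, hA, _, hfam.neg b hb, h2, le_nega_nega (hfam.reg b hb) h1⟩

theorem Sep.mono (hfam : IsFam (TopC o U θ) ℬ) {w w' v v' : Cnd o U} (hw : Below θ w)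
    (hw' : Below θ w') (hv : v ≤ w) (hv' : v' ≤ w') (h : Sep H θ ℬ w w') : Sep H θ ℬ v v' := by
  obtain ⟨A, hA, b, hb, h1, h2⟩ := h
  refine ⟨A, hA, b, hb, ?_, ?_⟩
  · exact (hfam.reg b hb).down _ h1 _ (cat_le hv hw fun x hx => hx)
  · exact (nega_reg TopC_comp (hfam.reg b hb).down).down _ h2 _ (cat_le hv' hw' fun x hx => hx)

theorem not_sep_self {w : Cnd o U} : ¬ Sep H θ ℬ w w := by
  rintro ⟨A, hA, b, hb, h1, h2⟩
  exact h2.2 _ le_rfl h1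

theorem lk_of_not_sep {w w' : Cnd o U} (hw' : Below θ w') (h : ¬ Sep H θ ℬ w w')
    {A : Set Ordinal.{u}} {hA : Big o U θ A} : Lk ℬ (cat H θ w A hA) (cat H θ w' A hA) := by
  by_contra hcon
  obtain ⟨b, hb, h1, h2⟩ := not_lk (K := TopC o U θ) (cat_top hw') hcon
  exact h ⟨A, hA, b, hb, h1, h2⟩

theorem below_rst_Iic {p : Cnd o U} {η z : Ordinal.{u}} (h : η < z) : Below z (rst p (Iic η)) :=
  fun _ hα => (show _ ≤ η from (mem_rst.1 hα).2).trans_lt h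

/-- the diagonalisation -/
def Delta (H : IsCoherent κ o U) (θ : Ordinal.{u}) (ℬ : Set (Set (Cnd o U))) (μ₀ : Ordinal.{u})
    (p₁ : Cnd o U) : Prop :=
  ∀ p p', p ≤ p₁ → p' ≤ p₁ → ∀ η, μ₀ ≤ η → η < θ → Clean η p → Clean η p' → Lk ℬ p p' →
    ¬ Sep H θ ℬ (rst p (Iic η)) (rst p' (Iic η))

theorem exists_delta (H : IsCoherent κ o U) {μ₀ : Ordinal.{u}} (hμ₀ : μ₀ < θ)
    (hfam : IsFam (TopC o U θ) ℬ) {A₀ : Set Ordinal.{u}} (hA₀ : Big o U θ A₀) :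
    ∃ (A₂ : Set Ordinal.{u}) (hA₂ : Big o U θ A₂), A₂ ⊆ A₀ ∧ A₂ ⊆ Ioi μ₀ ∧
      ∀ w₁ : Cnd o U, (∀ α ∈ w₁.dom, α ≤ μ₀) → Delta H θ ℬ μ₀ (cat H θ w₁ A₂ hA₂) := by
  have hex : ∀ w w' : Cnd o U, ∃ (A : Set Ordinal.{u}) (hA : Big o U θ A), Sep H θ ℬ w w' →
      ∃ b ∈ ℬ, cat H θ w A hA ∈ b ∧ cat H θ w' A hA ∈ nega (TopC o U θ) b := by
    intro w w'
    by_cases h : Sep H θ ℬ w w'
    · obtain ⟨A, hA, h'⟩ := h
      exact ⟨A, hA, fun _ => h'⟩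
    · exact ⟨univ, Big.univ, fun h' => absurd h' h⟩
  choose A hA hsep using hex
  set A₃ : Set Ordinal.{u} := {z | ∀ w : Cnd o U, Below z w → ∀ w' : Cnd o U, Below z w' →
    z ∈ A w w'} with hA₃
  have hA₃B : Big o U θ A₃ := by
    intro γ hγ
    refine diag_stem (H.normal θ γ hγ)
      (Q := fun w z => ∀ w' : Cnd o U, Below z w' → z ∈ A w w') fun w _ => ?_
    exact diag_stem (H.normal θ γ hγ) (Q := fun w' z => z ∈ A w w') fun w' _ => hA w w' γ hγ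
  refine ⟨A₀ ∩ (Ioi μ₀ ∩ A₃), hA₀.inter ((Big.tail H hμ₀).inter hA₃B), fun x hx => hx.1,
    fun x hx => hx.2.1, ?_⟩
  intro w₁ hw₁ p p' hp hp' η hμη hηθ hc hc' hL hS
  have hbw₁ : Below θ w₁ := fun α hα => (hw₁ α hα).trans_lt hμ₀
  set u := rst p (Iic η) with hu
  set u' := rst p' (Iic η) with hu'
  obtain ⟨b, hb, h1, h2⟩ := hsep u u' hS
  have key : ∀ r : Cnd o U, r ≤ cat H θ w₁ (A₀ ∩ (Ioi μ₀ ∩ A₃))
      (hA₀.inter ((Big.tail H hμ₀).inter hA₃B)) → Clean η r →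
      r ≤ cat H θ (rst r (Iic η)) (A u u') (hA u u') := by
    intro r hr hcr
    refine le_cat_intro (μ := η) (TopC_comp _ (cat_top hbw₁) r hr) le_rfl rst_Iic_le hηθ ?_
    intro α hα hηα
    obtain ⟨h3, h4, h5⟩ := le_cat_gt hr hw₁ hα (hμη.trans_lt hηα)
    refine ⟨fun x hx => ?_, h5.imp id fun h => ?_⟩
    · have hηx : η < x := hcr α hα hηα hx
      exact (h4 hx).2.2 u (below_rst_Iic hηx) u' (below_rst_Iic hηx)
    · exact h.2.2 u (below_rst_Iic hηα) u' (below_rst_Iic hηα)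
  have hpb : p ∈ b := (hfam.reg b hb).down _ h1 _ (key p hp hc)
  have hpb' : p' ∈ nega (TopC o U θ) b :=
    (nega_reg TopC_comp (hfam.reg b hb).down).down _ h2 _ (key p' hp' hc')
  exact not_lk_of hb hpb hpb' hL

theorem rst_rst_Iic {p : Cnd o U} {η y : Ordinal.{u}} (h : η ≤ y) :
    rst (rst p (Iic y)) (Iic η) = rst p (Iic η) := by
  rw [rst_rst]
  refine rst_congr fun α _ => ?_
  exact ⟨fun h => h.2, fun h' => ⟨(show α ≤ η from h').trans h, h'⟩⟩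

theorem Clean.rst {η y : Ordinal.{u}} {p : Cnd o U} (h : Clean η p) :
    Clean η (MagRad.rst p (Iic y)) := by
  intro z hz hηz
  rw [mem_rst] at hz
  rw [rst_S hz.2]
  exact h z hz.1 hηz

theorem clean_of_rst {η y : Ordinal.{u}} (hηy : η ≤ y) {p : Cnd o U} (h : Clean y p)
    (h' : Clean η (rst p (Iic y))) : Clean η p := by
  intro z hz hηz
  by_cases hzy : z ≤ y
  · have := h' z (mem_rst.2 ⟨hz, hzy⟩) hηz
    rwa [rst_S (show z ∈ Iic y from hzy)] at this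
  · exact (h z hz (not_le.1 hzy)).trans fun x hx => lt_of_le_of_lt hηy hx

/-- the state does not change below `y`, from some point on -/
def NStem (H : IsCoherent κ o U) (θ : Ordinal.{u}) (ℬ : Set (Set (Cnd o U)))
    (μ₀ y : Ordinal.{u}) (w : Cnd o U) : Prop :=
  ∃ η₀, μ₀ ≤ η₀ ∧ η₀ < y ∧ ∀ w' ≤ w, ∀ η, η₀ ≤ η → η < y → Clean η w' →
    ¬ Sep H θ ℬ (rst w' (Iic η)) w'

def NSet (H : IsCoherent κ o U) (θ : Ordinal.{u}) (ℬ : Set (Set (Cnd o U)))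
    (μ₀ y : Ordinal.{u}) : Set (Cnd o U) :=
  {p | p ∈ TopC o U θ ∧ Clean y p ∧ NStem H θ ℬ μ₀ y (rst p (Iic y))}

/-- the characteristic sets -/
def ch (H : IsCoherent κ o U) (θ : Ordinal.{u}) (ℬ : Set (Set (Cnd o U)))
    (μ₀ y : Ordinal.{u}) : Set (Cnd o U) := nega (TopC o U θ) (NSet H θ ℬ μ₀ y)

variable {μ₀ y : Ordinal.{u}}

theorem NStem.mono {w w' : Cnd o U} (h : w' ≤ w) (hw : NStem H θ ℬ μ₀ y w) :
    NStem H θ ℬ μ₀ y w' := by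
  obtain ⟨η₀, h1, h2, h3⟩ := hw
  exact ⟨η₀, h1, h2, fun v hv => h3 v (hv.trans h)⟩

theorem NSet_down {p q : Cnd o U} (hp : p ∈ NSet H θ ℬ μ₀ y) (hq : q ≤ p) :
    q ∈ NSet H θ ℬ μ₀ y :=
  ⟨TopC_comp p hp.1 q hq, hp.2.1.mono hq, hp.2.2.mono (rs_mono hq hp.2.1)⟩

theorem ch_reg : IsReg (TopC o U θ) (ch H θ ℬ μ₀ y) :=
  nega_reg TopC_comp fun _ hp _ hq => NSet_down hp hq

theorem NSet_of_not_mem (hy : μ₀ < y) {p : Cnd o U} (hp : p ∈ TopC o U θ) (hc : Clean y p)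
    (hyp : y ∉ p.dom) : p ∈ NSet H θ ℬ μ₀ y := by
  have hb : Below y (rst p (Iic y)) := by
    intro α hα
    rw [mem_rst] at hα
    refine lt_of_le_of_ne hα.2 ?_
    rintro rfl
    exact hyp hα.1
  obtain ⟨η₁, hη₁, hb1⟩ := hb.bound (lt_of_le_of_lt zero_le hy)
  refine ⟨hp, hc, max μ₀ η₁, le_max_left _ _, max_lt hy hη₁, ?_⟩
  intro w' hw' η hη _ _
  have : rst w' (Iic η) = w' := by
    refine rst_self fun α hα => ?_
    exact ((le_bound hw' hb1 α hα).trans (le_max_right _ _)).trans hη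
  rw [this]
  exact not_sep_self

theorem not_NSet_of_ch {p : Cnd o U} (h : p ∈ ch H θ ℬ μ₀ y) : p ∉ NSet H θ ℬ μ₀ y :=
  fun h' => h.2 p le_rfl h'

theorem ch_mem (hy : μ₀ < y) {p : Cnd o U} (h : p ∈ ch H θ ℬ μ₀ y) (hc : Clean y p) :
    y ∈ p.dom := by
  by_contra hcon
  exact not_NSet_of_ch h (NSet_of_not_mem hy h.1 hc hcon)

/-- the condition forces `ν` into the generic sequence -/
def Occ (o : Ordinal.{u} → Ordinal.{u}) (U : Ordinal.{u} → Ordinal.{u} → Ultrafilter Ordinal.{u})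
    (ν : Ordinal.{u}) : Set (Cnd o U) := {p | ∀ q ≤ p, ∃ r ≤ q, ν ∈ r.dom}

theorem ch_occ (hy : μ₀ < y) : ch H θ ℬ μ₀ y ⊆ Occ o U y := by
  intro p hp q hq
  obtain ⟨r, hr, _, hrc⟩ := clean_dense H y q
  exact ⟨r, hr, ch_mem hy (ch_reg.down p hp r (hr.trans hq)) hrc⟩

theorem NSet_neg_ch {p : Cnd o U} (h : p ∈ NSet H θ ℬ μ₀ y) :
    p ∈ nega (TopC o U θ) (ch H θ ℬ μ₀ y) :=
  ⟨h.1, fun q hq hqc => not_NSet_of_ch hqc (NSet_down h hq)⟩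

/-- locality -/
theorem ch_local {p q : Cnd o U} (hp : p ∈ ch H θ ℬ μ₀ y) (hc : Clean y p)
    (hq : q ∈ TopC o U θ) (hcq : Clean y q) (hle : rst q (Iic y) ≤ rst p (Iic y)) :
    q ∈ ch H θ ℬ μ₀ y := by
  refine ⟨hq, fun r hr hrN => ?_⟩
  obtain ⟨s, hs, hsr, _, _, hsc⟩ := graft H ((rs_mono hr hcq).trans hle)
  refine hp.2 s hs ⟨TopC_comp p hp.1 s hs, hsc hc, ?_⟩
  rw [hsr]
  exact hrN.2.2

theorem ch_or_N {p : Cnd o U} (hp : p ∈ TopC o U θ) :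
    ∃ q ≤ p, q ∈ NSet H θ ℬ μ₀ y ∪ ch H θ ℬ μ₀ y := by
  by_cases h : ∃ q ≤ p, q ∈ NSet H θ ℬ μ₀ y
  · obtain ⟨q, hq, hqN⟩ := h
    exact ⟨q, hq, Or.inl hqN⟩
  · push Not at h
    exact ⟨p, le_rfl, Or.inr ⟨hp, h⟩⟩

/-- deciding `b` at `η` is dense -/
theorem good_dense {b : Set (Cnd o U)} (hb : IsReg (TopC o U θ) b)
    {η : Ordinal.{u}} (hη : η < θ) (q : Cnd o U) :
    ∃ r ≤ q, Good H θ b (rst r (Iic η)) := by
  obtain ⟨w, hw, hg⟩ := prikry H hb hη (w := rst q (Iic η)) rst_Iic_le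
  obtain ⟨r, hr, hrw, _⟩ := graft H hw
  exact ⟨r, hr, hrw ▸ hg⟩

/-- cleaning is dense -/
theorem clean2_dense (H : IsCoherent κ o U) (η y : Ordinal.{u}) (q : Cnd o U) :
    ∃ r ≤ q, Clean η r ∧ Clean y r := by
  obtain ⟨r, hr, _, hrc⟩ := clean_dense H η q
  obtain ⟨s, hs, _, hsc⟩ := clean_dense H y r
  exact ⟨s, hs.trans hr, hrc.mono hs, hsc⟩

end MagRad
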