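import Pool.Agent.MagRad.Step

/-!
# Induction on the stem
-/

namespace MagRad

universe u

open Set

variable {κ : Ordinal.{u}}
variable {o : Ordinal.{u} → Ordinal.{u}} {U : Ordinal.{u} → Ordinal.{u} → Ultrafilter Ordinal.{u}}
variable {H : IsCoherent κ o U} {θ : Ordinal.{u}} {ℬ : Set (Set (Cnd o U))}
variable {μ₀ : Ordinal.{u}}

/-- the stems that force `b` with a suitable set at the top -/
def phi (H : IsCoherent κ o U) (θ μ₀ : Ordinal.{u}) (b : Set (Cnd o U)) : Set (Cnd o U) :=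
  {w | w ∈ TopC o U μ₀ ∧ ∃ (A : Set Ordinal.{u}) (hA : Big o U θ A), cat H θ w A hA ∈ b}

theorem below_top (hμ₀ : μ₀ < θ) {w : Cnd o U} (hw : w ∈ TopC o U μ₀) : Below θ w :=
  fun α hα => (hw.2 α hα).trans_lt hμ₀

theorem phi_reg (hμ₀ : μ₀ < θ) {b : Set (Cnd o U)} (hb : IsReg (TopC o U θ) b) :
    IsReg (TopC o U μ₀) (phi H θ μ₀ b) := by
  refine ⟨fun w hw => hw.1, ?_, ?_⟩
  · rintro w ⟨hw, A, hA, h⟩ v hv
    exact ⟨TopC_comp w hw v hv, A, hA, hb.down _ h _ (cat_le hv (below_top hμ₀ hw) fun x hx => hx)⟩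
  · intro w hw h
    have hex : ∀ v : Cnd o U, ∃ (A : Set Ordinal.{u}) (hA : Big o U θ A), v ∈ phi H θ μ₀ b →
        cat H θ v A hA ∈ b := by
      intro v
      by_cases hv : v ∈ phi H θ μ₀ b
      · obtain ⟨A, hA, h'⟩ := hv.2
        exact ⟨A, hA, fun _ => h'⟩
      · exact ⟨univ, Big.univ, fun h' => absurd h' hv⟩
    choose A hA hAb using hex
    have hB : Big o U θ {z | ∀ v : Cnd o U, (∀ α ∈ v.dom, α ≤ μ₀) → z ∈ A v} := by
      intro γ hγ
      exact all_stem (H.normal θ γ hγ) hμ₀ (Q := fun v z => z ∈ A v) fun v _ => hA v γ hγ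
    set B : Set Ordinal.{u} := {z | ∀ v : Cnd o U, (∀ α ∈ v.dom, α ≤ μ₀) → z ∈ A v} ∩ Ioi μ₀
      with hBdef
    have hBB : Big o U θ B := hB.inter (Big.tail H hμ₀)
    have hbw := below_top hμ₀ hw
    refine ⟨hw, B, hBB, hb.dense _ (cat_top hbw) fun q hq => ?_⟩
    have hqK := TopC_comp _ (cat_top hbw) q hq
    obtain ⟨v, hv, hvφ⟩ := h _ (le_cat_rst hq hw.2 hμ₀ inter_subset_right)
    obtain ⟨r, hr, hrv, hdom, hS, _⟩ := graft H hv
    refine ⟨r, hr, hb.down _ (hAb v hvφ) _ ?_⟩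
    refine le_cat_intro (μ := μ₀) (TopC_comp _ hqK r hr) hrv.le hvφ.1.2 hμ₀ ?_
    intro α hα hμα
    obtain ⟨_, h2, h3⟩ := le_cat_gt hq hw.2 ((hdom α hμα).1 hα) hμα
    rw [hS α hμα]
    exact ⟨fun x hx => (h2 hx).1 v hvφ.1.2, h3.imp id fun h => h.1 v hvφ.1.2⟩

theorem phi_neg (hμ₀ : μ₀ < θ) {b : Set (Cnd o U)} (hb : IsReg (TopC o U θ) b) :
    phi H θ μ₀ (nega (TopC o U θ) b) = nega (TopC o U μ₀) (phi H θ μ₀ b) := by
  have hnr := nega_reg TopC_comp hb.down (K := TopC o U θ)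
  apply Subset.antisymm
  · rintro w ⟨hw, A, hA, h⟩
    refine ⟨hw, ?_⟩
    rintro v hv ⟨hvK, A', hA', h'⟩
    have hbv := below_top hμ₀ hvK
    have h1 : cat H θ v (A ∩ A') (hA.inter hA') ∈ b :=
      hb.down _ h' _ (cat_le le_rfl hbv inter_subset_right)
    exact h.2 _ (cat_le hv (below_top hμ₀ hw) inter_subset_left) h1
  · rintro w ⟨hw, h⟩
    refine (phi_reg hμ₀ hnr).dense w hw fun v hv => ?_
    have hvK := TopC_comp w hw v hv
    obtain ⟨v', hv', A, hA, hg⟩ := prikry H hb hμ₀ hvK.2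
    have hv'K := TopC_comp v hvK v' hv'
    rcases hg with hg | hg
    · exact absurd ⟨hv'K, A, hA, hg⟩ (h v' (hv'.trans hv))
    · exact ⟨v', hv', hv'K, A, hA, hg⟩

theorem phi_fam (hμ₀ : μ₀ < θ) (hfam : IsFam (TopC o U θ) ℬ) :
    IsFam (TopC o U μ₀) {e | ∃ b ∈ ℬ, phi H θ μ₀ b = e} := by
  refine ⟨TopC_comp, ?_, ?_, ?_⟩
  · rintro e ⟨b, hb, rfl⟩
    exact phi_reg hμ₀ (hfam.reg b hb)
  · rintro e ⟨b, hb, rfl⟩
    exact ⟨_, hfam.neg b hb, phi_neg hμ₀ (hfam.reg b hb)⟩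
  · intro 𝒟 h𝒟
    have hex : ∀ D : Set (Cnd o U), ∃ b, D ∈ 𝒟 → b ∈ ℬ ∧ phi H θ μ₀ b = D := by
      intro D
      by_cases hD : D ∈ 𝒟
      · obtain ⟨b, hb, h⟩ := h𝒟 hD
        exact ⟨b, fun _ => ⟨hb, h⟩⟩
      · exact ⟨∅, fun h => absurd h hD⟩
    choose β hβ using hex
    set s : Set (Cnd o U) := supr (TopC o U θ) {b | ∃ D ∈ 𝒟, β D = b} with hs
    have hsℬ : s ∈ ℬ := by
      refine hfam.sup _ ?_
      rintro b ⟨D, hD, rfl⟩
      exact (hβ D hD).1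
    have hsr := hfam.reg s hsℬ
    refine ⟨s, hsℬ, Subset.antisymm ?_ ?_⟩
    · rintro w ⟨hw, A, hA, h⟩
      refine ⟨hw, fun w' hw' => ?_⟩
      by_contra hcon
      push Not at hcon
      have hw'K := TopC_comp w hw w' hw'
      have hex : ∀ D : Set (Cnd o U), ∃ (A : Set Ordinal.{u}) (hA : Big o U θ A), D ∈ 𝒟 →
          cat H θ w' A hA ∈ nega (TopC o U θ) (β D) := by
        intro D
        by_cases hD : D ∈ 𝒟
        · have h1 : w' ∈ nega (TopC o U μ₀) (phi H θ μ₀ (β D)) := by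
            refine ⟨hw'K, fun w'' hw'' h2 => ?_⟩
            rw [(hβ D hD).2] at h2
            exact hcon w'' hw'' D hD h2
          rw [← phi_neg hμ₀ (hfam.reg _ (hβ D hD).1)] at h1
          obtain ⟨_, A, hA, h2⟩ := h1
          exact ⟨A, hA, fun _ => h2⟩
        · exact ⟨univ, Big.univ, fun h' => absurd h' hD⟩
      choose A' hA' hAD using hex
      have hB : Big o U θ {z | ∀ D : Set (Cnd o U), (∀ v ∈ D, ∀ α ∈ v.dom, α ≤ μ₀) →
          z ∈ A' D} := by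
        intro γ hγ
        exact all_fam (H.normal θ γ hγ) hμ₀ (Q := fun D z => z ∈ A' D) fun D _ => hA' D γ hγ
      have hbw' := below_top hμ₀ hw'K
      obtain ⟨r, hr, b, ⟨D, hD, rfl⟩, hrb⟩ := h.2 (cat H θ w' (A ∩ _) (hA.inter hB))
        (cat_le hw' (below_top hμ₀ hw) inter_subset_left)
      have hDb : ∀ v ∈ D, ∀ α ∈ v.dom, α ≤ μ₀ := by
        intro v hv
        rw [← (hβ D hD).2] at hv
        exact hv.1.2
      refine (hAD D hD).2 r (hr.trans (cat_le le_rfl hbw' ?_)) hrb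
      exact fun x hx => hx.2 D hDb
    · rintro w ⟨hw, h⟩
      refine (phi_reg hμ₀ hsr).dense w hw fun w' hw' => ?_
      obtain ⟨w'', hw'', D, hD, hwD⟩ := h w' hw'
      rw [← (hβ D hD).2] at hwD
      obtain ⟨hw''K, A, hA, h2⟩ := hwD
      exact ⟨w'', hw'', hw''K, A, hA,
        mem_supr_of_mem (show β D ∈ {b | ∃ D ∈ 𝒟, β D = b} from ⟨D, hD, rfl⟩)
          (hfam.reg _ (hβ D hD).1) h2⟩

/-- lifting a set of stems -/
def lft (o : Ordinal.{u} → Ordinal.{u}) (U : Ordinal.{u} → Ordinal.{u} → Ultrafilter Ordinal.{u})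
    (θ μ₀ : Ordinal.{u}) (D : Set (Cnd o U)) : Set (Cnd o U) :=
  {p | p ∈ TopC o U θ ∧ ∀ q ≤ p, ∃ r ≤ q, Clean μ₀ r ∧ rst r (Iic μ₀) ∈ D}

theorem lft_reg (D : Set (Cnd o U)) : IsReg (TopC o U θ) (lft o U θ μ₀ D) := by
  refine ⟨fun p hp => hp.1, fun p hp q hq => ⟨TopC_comp p hp.1 q hq, fun r hr =>
    hp.2 r (hr.trans hq)⟩, fun p hp h => ⟨hp, fun q hq => ?_⟩⟩
  obtain ⟨r, hr, hrD⟩ := h q hq
  obtain ⟨s, hs, hs'⟩ := hrD.2 r le_rfl
  exact ⟨s, hs.trans hr, hs'⟩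

theorem rst_top {p : Cnd o U} (h : μ₀ ∈ p.dom) : rst p (Iic μ₀) ∈ TopC o U μ₀ :=
  ⟨mem_rst.2 ⟨h, mem_Iic.2 le_rfl⟩, rst_Iic_le⟩

theorem lft_iff (H : IsCoherent κ o U) {D : Set (Cnd o U)} (hD : IsReg (TopC o U μ₀) D)
    {p : Cnd o U} (hp : p ∈ TopC o U θ) (hc : Clean μ₀ p) (hμ : μ₀ ∈ p.dom) :
    p ∈ lft o U θ μ₀ D ↔ rst p (Iic μ₀) ∈ D := by
  constructor
  · intro h
    refine hD.dense _ (rst_top hμ) fun w hw => ?_
    obtain ⟨q, hq, hqw, _, _, hqc⟩ := graft H hw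
    obtain ⟨r, hr, _, hrD⟩ := h.2 q hq
    exact ⟨_, (rs_mono hr (hqc hc)).trans hqw.le, hrD⟩
  · intro h
    refine ⟨hp, fun q hq => ⟨q, le_rfl, hc.mono hq, ?_⟩⟩
    exact hD.down _ h _ (rs_mono hq hc)

theorem lft_occ (H : IsCoherent κ o U) {D : Set (Cnd o U)} {ν : Ordinal.{u}}
    (hD : D ⊆ Occ o U ν) : lft o U θ μ₀ D ⊆ Occ o U ν := by
  intro p hp q hq
  obtain ⟨r, hr, _, hrD⟩ := hp.2 q hq
  obtain ⟨w, hw, hν⟩ := hD hrD _ le_rfl
  obtain ⟨s, hs, hsw, _⟩ := graft H hw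
  refine ⟨s, hs.trans hr, ?_⟩
  rw [← hsw, mem_rst] at hν
  exact hν.1

/-- `D'` at `θ` corresponds to `D` at `μ₀` -/
def Rel (θ μ₀ : Ordinal.{u}) (D D' : Set (Cnd o U)) : Prop :=
  ∀ p : Cnd o U, p ∈ TopC o U θ → Clean μ₀ p → μ₀ ∈ p.dom → (p ∈ D' ↔ rst p (Iic μ₀) ∈ D)

theorem rel_neg (H : IsCoherent κ o U) {D D' : Set (Cnd o U)} (h : Rel θ μ₀ D D') :
    Rel θ μ₀ (nega (TopC o U μ₀) D) (nega (TopC o U θ) D') := by
  intro p hp hc hμ
  constructor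
  · intro hn
    refine ⟨rst_top hμ, fun w hw hwD => ?_⟩
    obtain ⟨q, hq, hqw, _, _, hqc⟩ := graft H hw
    refine hn.2 q hq ((h q (TopC_comp p hp q hq) (hqc hc) (hq.1 hμ)).2 ?_)
    rw [hqw]
    exact hwD
  · intro hn
    refine ⟨hp, fun q hq hqD => ?_⟩
    exact hn.2 _ (rs_mono hq hc) ((h q (TopC_comp p hp q hq) (hc.mono hq) (hq.1 hμ)).1 hqD)

theorem gen_lift (H : IsCoherent κ o U) {𝒢 𝒢' : Set (Set (Cnd o U))}
    (h : ∀ D ∈ 𝒢, ∃ D', GenK (TopC o U θ) 𝒢' D' ∧ Rel θ μ₀ D D') {D : Set (Cnd o U)}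
    (hD : GenK (TopC o U μ₀) 𝒢 D) : ∃ D', GenK (TopC o U θ) 𝒢' D' ∧ Rel θ μ₀ D D' := by
  induction hD with
  | base D hD => exact h D hD
  | neg D _ ih =>
    obtain ⟨D', hD', hR⟩ := ih
    exact ⟨_, GenK.neg _ hD', rel_neg H hR⟩
  | sup 𝒟 _ ih =>
    refine ⟨supr (TopC o U θ) {D' | GenK (TopC o U θ) 𝒢' D' ∧ ∃ D ∈ 𝒟, Rel θ μ₀ D D'},
      GenK.sup _ fun D' h => h.1, ?_⟩
    intro p hp hc hμ
    constructor
    · rintro ⟨_, hn⟩
      refine ⟨rst_top hμ, fun w hw => ?_⟩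
      obtain ⟨q, hq, hqw, _, _, hqc⟩ := graft H hw
      obtain ⟨r, hr, D', ⟨_, D, hD, hR⟩, hrD⟩ := hn q hq
      have hrp := hr.trans hq
      refine ⟨rst r (Iic μ₀), (rs_mono hr (hqc hc)).trans hqw.le, D, hD, ?_⟩
      exact (hR r (TopC_comp p hp r hrp) (hc.mono hrp) (hrp.1 hμ)).1 hrD
    · rintro ⟨_, hn⟩
      refine ⟨hp, fun q hq => ?_⟩
      obtain ⟨w, hw, D, hD, hwD⟩ := hn _ (rs_mono hq hc)
      obtain ⟨r, hr, hrw, _, _, hrc⟩ := graft H hw
      obtain ⟨D', hD', hR⟩ := ih D hD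
      have hrp := hr.trans hq
      refine ⟨r, hr, D', ⟨hD', D, hD, hR⟩, ?_⟩
      rw [hR r (TopC_comp p hp r hrp) (hc.mono hrp) (hrp.1 hμ), hrw]
      exact hwD

/-- the conclusion at `θ`, for the condition `p₀` and the family `ℬ` -/
def Concl (o : Ordinal.{u} → Ordinal.{u}) (U : Ordinal.{u} → Ordinal.{u} → Ultrafilter Ordinal.{u})
    (θ : Ordinal.{u}) (ℬ : Set (Set (Cnd o U))) (p₀ : Cnd o U) : Prop :=
  ∃ q ≤ p₀, ∃ c : Ordinal.{u} → Set (Cnd o U),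
    (∀ ν, IsReg (TopC o U θ) (c ν)) ∧ (∀ ν, c ν ⊆ Occ o U ν) ∧ (∀ ν, θ ≤ ν → c ν = ∅) ∧
    (∀ ν, ∀ p p' : Cnd o U, p ≤ q → p' ≤ q → Lk ℬ p p' → p ∈ c ν →
      p' ∉ nega (TopC o U θ) (c ν)) ∧
    (∀ p p' : Cnd o U, p ≤ q → p' ≤ q → Lk {D | GenK (TopC o U θ) (range c) D} p p' →
      ∀ b ∈ ℬ, p ∈ b → p' ∉ nega (TopC o U θ) b)

theorem empty_reg {K : Set (Cnd o U)} : IsReg K (∅ : Set (Cnd o U)) := by
  refine ⟨empty_subset _, fun p hp => absurd hp (notMem_empty p), fun p _ h => ?_⟩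
  obtain ⟨r, _, hr⟩ := h p le_rfl
  exact absurd hr (notMem_empty r)

/-- the common part of the two cases -/
theorem concl_step (H : IsCoherent κ o U) (hμ₀ : μ₀ < θ) (hfam : IsFam (TopC o U θ) ℬ)
    {p₀ w₁ : Cnd o U} (hw₁ : ∀ α ∈ w₁.dom, α ≤ μ₀)
    (hp₀ : ∀ (A : Set Ordinal.{u}) (hA : Big o U θ A), A ⊆ p₀.S θ → cat H θ w₁ A hA ≤ p₀)
    (hθ : θ ∈ p₀.dom)
    {c₀ : Ordinal.{u} → Set (Cnd o U)}
    (hc₀ : ∀ ν < μ₀, IsReg (TopC o U θ) (c₀ ν)) (hc₀' : ∀ ν < μ₀, c₀ ν ⊆ Occ o U ν)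
    (hi : ∀ (A : Set Ordinal.{u}) (hA : Big o U θ A), A ⊆ Ioi μ₀ →
      Delta H θ ℬ μ₀ (cat H θ w₁ A hA) → ∀ ν < μ₀, ∀ p p' : Cnd o U, p ≤ cat H θ w₁ A hA →
      p' ≤ cat H θ w₁ A hA → Lk ℬ p p' → p ∈ c₀ ν → p' ∉ nega (TopC o U θ) (c₀ ν))
    (hbase : ∀ (A : Set Ordinal.{u}) (hA : Big o U θ A), A ⊆ Ioi μ₀ →
      ∀ 𝒟 : Set (Set (Cnd o U)), (∀ D, GenK (TopC o U θ) {e | ∃ ν < μ₀, c₀ ν = e} D → D ∈ 𝒟) →
      ∀ p p' : Cnd o U, p ≤ cat H θ w₁ A hA → p' ≤ cat H θ w₁ A hA → Lk 𝒟 p p' →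
      Clean μ₀ p → Clean μ₀ p' → ¬ Sep H θ ℬ (rst p (Iic μ₀)) (rst p' (Iic μ₀))) :
    Concl o U θ ℬ p₀ := by
  classical
  have hbw₁ : Below θ w₁ := fun α hα => (hw₁ α hα).trans_lt hμ₀
  obtain ⟨A₂, hA₂, hA₂₀, hA₂μ, hΔ⟩ := exists_delta H hμ₀ hfam (p₀.big hθ)
  have hΔ := hΔ w₁ hw₁
  have hbad := bad_null hfam (cat_top hbw₁) hΔ hμ₀ (hA₂ := hA₂)
  set A₃ : Set Ordinal.{u} := A₂ ∩ {y | ¬ Bad H θ ℬ μ₀ (cat H θ w₁ A₂ hA₂) A₂ hA₂ y} with hA₃def
  have hA₃ : Big o U θ A₃ := hA₂.inter hbad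
  have hA₃₂ : A₃ ⊆ A₂ := inter_subset_left
  have hp₃₁ : cat H θ w₁ A₃ hA₃ ≤ cat H θ w₁ A₂ hA₂ := cat_le le_rfl hbw₁ hA₃₂
  set c : Ordinal.{u} → Set (Cnd o U) := fun ν =>
    if ν < μ₀ then c₀ ν else if μ₀ < ν ∧ ν < θ then ch H θ ℬ μ₀ ν else ∅ with hc
  have hcreg : ∀ ν, IsReg (TopC o U θ) (c ν) := by
    intro ν
    simp only [hc]
    by_cases h1 : ν < μ₀
    · rw [if_pos h1]
      exact hc₀ ν h1
    · rw [if_neg h1]
      by_cases h2 : μ₀ < ν ∧ ν < θ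
      · rw [if_pos h2]
        exact ch_reg
      · rw [if_neg h2]
        exact empty_reg
  set 𝒟 : Set (Set (Cnd o U)) := {D | GenK (TopC o U θ) (range c) D} with h𝒟
  have hfam' : IsFam (TopC o U θ) 𝒟 := genK_fam TopC_comp (by
    rintro D ⟨ν, rfl⟩
    exact hcreg ν)
  refine ⟨cat H θ w₁ A₃ hA₃, hp₀ A₃ hA₃ (hA₃₂.trans hA₂₀), c, hcreg, ?_, ?_, ?_, ?_⟩
  · intro ν
    simp only [hc]
    by_cases h1 : ν < μ₀
    · rw [if_pos h1]
      exact hc₀' ν h1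
    · rw [if_neg h1]
      by_cases h2 : μ₀ < ν ∧ ν < θ
      · rw [if_pos h2]
        exact ch_occ h2.1
      · rw [if_neg h2]
        exact empty_subset _
  · intro ν hν
    simp only [hc]
    rw [if_neg (not_lt.2 (hμ₀.le.trans hν)), if_neg (fun h => not_lt.2 hν h.2)]
  · intro ν p p' hp hp' hL
    simp only [hc]
    by_cases h1 : ν < μ₀
    · rw [if_pos h1]
      exact hi A₂ hA₂ hA₂μ hΔ ν h1 p p' (hp.trans hp₃₁) (hp'.trans hp₃₁) hL
    · rw [if_neg h1]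
      by_cases h2 : μ₀ < ν ∧ ν < θ
      · rw [if_pos h2]
        exact ch_in hfam (cat_top hbw₁) hΔ h2.2 (hp.trans hp₃₁) (hp'.trans hp₃₁) hL
      · rw [if_neg h2]
        exact fun h => absurd h (notMem_empty p)
  · have hmain := below_sep hfam hfam' (μ₀ := μ₀) (by
      intro y hy hyθ
      refine GenK.base _ ⟨y, ?_⟩
      simp only [hc]
      rw [if_neg (not_lt.2 hy.le), if_pos ⟨hy, hyθ⟩]) hμ₀ hw₁ (hA₂ := hA₂) hA₂μ (hA₃ := hA₃) hA₃₂
      (fun y hy => hy.2) (by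
        refine hbase A₃ hA₃ (hA₃₂.trans hA₂μ) 𝒟 ?_
        intro D hD
        induction hD with
        | base D hD =>
          obtain ⟨ν, hν, rfl⟩ := hD
          refine GenK.base _ ⟨ν, ?_⟩
          simp only [hc]
          rw [if_pos hν]
        | neg D _ ih => exact GenK.neg _ ih
        | sup 𝒟 _ ih => exact GenK.sup _ ih)
    intro p p' hp hp' hL b hb hpb
    exact final_sep hfam hfam' hμ₀ (cat_top hbw₁) hmain hp hp' hL hb hpb

/-- The main theorem on linked pairs. -/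
theorem concl (H : IsCoherent κ o U) : ∀ (θ : Ordinal.{u}) (ℬ : Set (Set (Cnd o U)))
    (_ : IsFam (TopC o U θ) ℬ) (p₀ : Cnd o U) (_ : p₀ ∈ TopC o U θ), Concl o U θ ℬ p₀ := by
  classical
  intro θ
  induction θ using WellFoundedLT.induction with
  | ind θ ih =>
    intro ℬ hfam p₀ hp₀
    by_cases hne : (p₀.dom.filter (fun α => ¬ θ ≤ α)).Nonempty
    · -- there is a point below the top
      obtain ⟨μ₀, hμm, hmax'⟩ :=
        Finset.exists_max_image (p₀.dom.filter (fun α => ¬ θ ≤ α)) id hne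
      obtain ⟨hμp, hμ₀'⟩ := Finset.mem_filter.1 hμm
      have hμ₀ : μ₀ < θ := not_le.1 hμ₀'
      have hmax : ∀ α ∈ p₀.dom, α < θ → α ≤ μ₀ := fun α hα h =>
        hmax' α (Finset.mem_filter.2 ⟨hα, not_le.2 h⟩)
      have hfamφ := phi_fam (H := H) hμ₀ hfam
      obtain ⟨w₁, hw₁le, c₀, hc₀reg, hc₀occ, hc₀top, hc₀i, hc₀ii⟩ :=
        ih μ₀ hμ₀ _ hfamφ (rst p₀ (Iic μ₀)) (rst_top hμp)
      have hw₁K : w₁ ∈ TopC o U μ₀ := TopC_comp _ (rst_top hμp) w₁ hw₁le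
      have hbw₁ := below_top hμ₀ hw₁K
      refine concl_step H hμ₀ hfam (w₁ := w₁) (c₀ := fun ν => lft o U θ μ₀ (c₀ ν)) hw₁K.2 ?_
        hp₀.1 (fun ν _ => lft_reg _) (fun ν _ => lft_occ H (hc₀occ ν)) ?_ ?_
      · intro A hA hAs
        have e : p₀ = cat H θ (rst p₀ (Iic μ₀)) (p₀.S θ) (p₀.big hp₀.1) := by
          have e1 : rst p₀ (Iic μ₀) = rst p₀ (Iio θ) := rst_congr fun α hα =>
            ⟨fun h => (mem_Iic.1 h).trans_lt hμ₀, fun h => hmax α hα (mem_Iio.1 h)⟩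
          rw [e1]
          exact top_eq_cat hp₀
        rw [e]
        exact cat_le hw₁le (below_rst_Iic hμ₀) hAs
      · intro A hA hAμ hΔ ν hν p p' hp hp' hL hpc hpc'
        have hp1K : cat H θ w₁ A hA ∈ TopC o U θ := cat_top hbw₁
        have hpK := TopC_comp _ hp1K p hp
        have hp'K := TopC_comp _ hp1K p' hp'
        obtain ⟨r, hr, hcr, hL3⟩ := Lk.lift hfam hpK hp'K hL (D := {s | Clean μ₀ s})
          (fun q₁ _ => by
            obtain ⟨s, hs, _, hsc⟩ := clean_dense H μ₀ q₁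
            exact ⟨s, hs, hsc⟩)
        have hrK := TopC_comp _ hpK r hr
        obtain ⟨r', hr', hcr', hL4⟩ := Lk.lift' hfam hrK hp'K hL3 (D := {s | Clean μ₀ s})
          (fun q₁ _ => by
            obtain ⟨s, hs, _, hsc⟩ := clean_dense H μ₀ q₁
            exact ⟨s, hs, hsc⟩)
        have hr'K := TopC_comp _ hp'K r' hr'
        have hrp := hr.trans hp
        have hrp' := hr'.trans hp'
        have hμ₁ : μ₀ ∈ (cat H θ w₁ A hA).dom := mem_cat.2 (Or.inr hw₁K.1)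
        have hμr : μ₀ ∈ r.dom := hrp.1 hμ₁
        have hμr' : μ₀ ∈ r'.dom := hrp'.1 hμ₁
        have h1 : rst r (Iic μ₀) ∈ c₀ ν :=
          (lft_iff H (hc₀reg ν) hrK hcr hμr).1 ((lft_reg _).down _ hpc _ hr)
        have hrel : Rel θ μ₀ (c₀ ν) (lft o U θ μ₀ (c₀ ν)) :=
          fun p hp hc hμ => lft_iff H (hc₀reg ν) hp hc hμ
        have h2 : rst r' (Iic μ₀) ∈ nega (TopC o U μ₀) (c₀ ν) :=
          (rel_neg H hrel r' hr'K hcr' hμr').1
            ((nega_reg TopC_comp (lft_reg _).down).down _ hpc' _ hr')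
        have hle1 : rst r (Iic μ₀) ≤ w₁ := le_cat_rst hrp hw₁K.2 hμ₀ hAμ
        have hle1' : rst r' (Iic μ₀) ≤ w₁ := le_cat_rst hrp' hw₁K.2 hμ₀ hAμ
        have hnL : ¬ Lk {e | ∃ b ∈ ℬ, phi H θ μ₀ b = e} (rst r (Iic μ₀)) (rst r' (Iic μ₀)) :=
          fun hLk => hc₀i ν _ _ hle1 hle1' hLk h1 h2
        obtain ⟨e, ⟨b, hb, rfl⟩, h3, h4⟩ := not_lk (K := TopC o U μ₀) h2.1 hnL
        rw [← phi_neg hμ₀ (hfam.reg b hb)] at h4
        obtain ⟨_, B, hB, h3⟩ := h3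
        obtain ⟨_, B', hB', h4⟩ := h4
        exact hΔ r r' hrp hrp' μ₀ le_rfl hμ₀ hcr hcr' hL4
          (sep_of hfam (below_rst_Iic hμ₀) (below_rst_Iic hμ₀) hb h3 h4)
      · intro A hA hAμ 𝒟 h𝒟 p p' hp hp' hL hc hc' hS
        obtain ⟨B, hB, b, hb, h1, h2⟩ := hS
        have hp1K : cat H θ w₁ A hA ∈ TopC o U θ := cat_top hbw₁
        have hpK := TopC_comp _ hp1K p hp
        have hp'K := TopC_comp _ hp1K p' hp'
        have hμ₁ : μ₀ ∈ (cat H θ w₁ A hA).dom := mem_cat.2 (Or.inr hw₁K.1)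
        have hμp : μ₀ ∈ p.dom := hp.1 hμ₁
        have hμp' : μ₀ ∈ p'.dom := hp'.1 hμ₁
        have hle1 : rst p (Iic μ₀) ≤ w₁ := le_cat_rst hp hw₁K.2 hμ₀ hAμ
        have hle1' : rst p' (Iic μ₀) ≤ w₁ := le_cat_rst hp' hw₁K.2 hμ₀ hAμ
        have h3 : rst p (Iic μ₀) ∈ phi H θ μ₀ b := ⟨rst_top hμp, B, hB, h1⟩
        have h4 : rst p' (Iic μ₀) ∈ nega (TopC o U μ₀) (phi H θ μ₀ b) := by
          rw [← phi_neg hμ₀ (hfam.reg b hb)]
          exact ⟨rst_top hμp', B, hB, h2⟩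
        have hnL : ¬ Lk {D | GenK (TopC o U μ₀) (range c₀) D} (rst p (Iic μ₀))
            (rst p' (Iic μ₀)) :=
          fun hLk => hc₀ii _ _ hle1 hle1' hLk _ ⟨b, hb, rfl⟩ h3 h4
        obtain ⟨d, hd, h5, h6⟩ := not_lk (K := TopC o U μ₀) h4.1 hnL
        obtain ⟨d', hd', hR⟩ := gen_lift (θ := θ) H
          (𝒢' := {e | ∃ ν < μ₀, lft o U θ μ₀ (c₀ ν) = e} ) (by
            rintro D ⟨ν, rfl⟩
            by_cases hν : ν < μ₀
            · exact ⟨_, GenK.base _ ⟨ν, hν, rfl⟩,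
                fun p hp hc hμ => lft_iff H (hc₀reg ν) hp hc hμ⟩
            · refine ⟨_, GenK.sup ∅ fun D hD => absurd hD (notMem_empty D), ?_⟩
              intro p _ _ _
              rw [hc₀top ν (not_lt.1 hν)]
              constructor
              · intro h
                obtain ⟨_, _, D, hD, _⟩ := h.2 p le_rfl
                exact absurd hD (notMem_empty D)
              · intro h
                exact absurd h (notMem_empty _)) hd
        exact not_lk_of (K := TopC o U θ) (h𝒟 d' hd') ((hR p hpK hc hμp).2 h5)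
          ((rel_neg H hR p' hp'K hc' hμp').2 h6) hL
    · -- no point below the top
      have hdom : ∀ α ∈ p₀.dom, α = θ := by
        intro α hα
        by_contra h
        exact hne ⟨α, Finset.mem_filter.2 ⟨hα, not_le.2 (lt_of_le_of_ne (hp₀.2 α hα) h)⟩⟩
      by_cases hθ0 : θ = 0
      · -- trivial case
        subst hθ0
        have huniq : ∀ p p' : Cnd o U, p ∈ TopC o U 0 → p' ∈ TopC o U 0 → p = p' := by
          intro p p' hp hp'
          have h0 : ∀ q : Cnd o U, q ∈ TopC o U 0 → q.dom = {0} := by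
            intro q hq
            ext α
            rw [Finset.mem_singleton]
            constructor
            · intro h
              exact le_antisymm (hq.2 α h) zero_le
            · rintro rfl
              exact hq.1
          refine Cnd.ext' ((h0 p hp).trans (h0 p' hp').symm) fun α hα => ?_
          have : α = 0 := by
            rw [h0 p hp, Finset.mem_singleton] at hα
            exact hα
          subst this
          ext x
          constructor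
          · intro h
            exact absurd (mem_Iio.1 (p.sub 0 h)) (not_lt.2 zero_le)
          · intro h
            exact absurd (mem_Iio.1 (p'.sub 0 h)) (not_lt.2 zero_le)
        refine ⟨p₀, le_rfl, fun _ => ∅, fun _ => empty_reg, fun _ => empty_subset _,
          fun _ _ => rfl, fun _ p _ _ _ _ h => absurd h (notMem_empty p), ?_⟩
        intro p p' hp hp' _ b _ hpb hpb'
        rw [huniq p p' (TopC_comp _ hp₀ p hp) (TopC_comp _ hp₀ p' hp')] at hpb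
        exact hpb'.2 _ le_rfl hpb
      · have hθ : 0 < θ := lt_of_le_of_ne zero_le (Ne.symm hθ0)
        have hrst : rst p₀ (Iio θ) = emp o U := by
          apply Cnd.ext'
          · ext α
            rw [mem_rst]
            constructor
            · rintro ⟨h1, h2⟩
              exact absurd (hdom α h1) (show α < θ from h2).ne
            · intro h
              exact absurd h (Finset.notMem_empty α)
          · intro α hα
            rw [mem_rst] at hα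
            exact absurd (hdom α hα.1) (show α < θ from hα.2).ne
        have hemp : ∀ w : Cnd o U, w ≤ emp o U → w = emp o U := by
          intro w hw
          have hd : w.dom = ∅ := by
            apply Finset.eq_empty_of_forall_notMem
            intro α hα
            obtain ⟨β, hβ, _⟩ := hw.2 α hα
            exact absurd hβ (Finset.notMem_empty β)
          refine Cnd.ext' hd fun α hα => ?_
          rw [hd] at hα
          exact absurd hα (Finset.notMem_empty α)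
        refine concl_step H hθ hfam (w₁ := emp o U) (c₀ := fun _ => ∅)
          (fun α hα => absurd hα (Finset.notMem_empty α)) ?_ hp₀.1
          (fun ν _ => empty_reg) (fun ν _ => empty_subset _)
          (fun _ _ _ _ ν hν => absurd hν (not_lt.2 zero_le)) ?_
        · intro A hA hAs
          have e := top_eq_cat (H := H) hp₀
          rw [hrst] at e
          rw [e]
          exact cat_le le_rfl (fun α hα => absurd hα (Finset.notMem_empty α)) hAs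
        · intro A hA hAμ 𝒟 _ p p' hp hp' _ _ _ hS
          have hE : ∀ α ∈ (emp o U).dom, α ≤ 0 := fun α hα => absurd hα (Finset.notMem_empty α)
          have h1 := hemp _ (le_cat_rst hp hE hθ hAμ)
          have h2 := hemp _ (le_cat_rst hp' hE hθ hAμ)
          rw [h1, h2] at hS
          exact not_sep_self hS

end MagRad
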