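import Pool.Agent.MagRad.Sep

/-!
# The characteristic sets belong to the algebra, and generate it over the lower part
-/

namespace MagRad

universe u

open Set

variable {κ : Ordinal.{u}}
variable {o : Ordinal.{u} → Ordinal.{u}} {U : Ordinal.{u} → Ordinal.{u} → Ultrafilter Ordinal.{u}}
variable {H : IsCoherent κ o U} {θ : Ordinal.{u}} {ℬ : Set (Set (Cnd o U))}
variable {μ₀ y : Ordinal.{u}} {p₁ : Cnd o U}

/-- (I): no linked pair is separated by a characteristic set -/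
theorem ch_in (hfam : IsFam (TopC o U θ) ℬ) (hp₁ : p₁ ∈ TopC o U θ) (hΔ : Delta H θ ℬ μ₀ p₁)
    (hyθ : y < θ) {p p' : Cnd o U} (hp : p ≤ p₁) (hp' : p' ≤ p₁)
    (hL : Lk ℬ p p') (hc : p ∈ ch H θ ℬ μ₀ y) : p' ∉ nega (TopC o U θ) (ch H θ ℬ μ₀ y) := by
  intro hc'
  have hpK : p ∈ TopC o U θ := TopC_comp _ hp₁ p hp
  have hp'K : p' ∈ TopC o U θ := TopC_comp _ hp₁ p' hp'
  obtain ⟨p'₁, hp'₁, hN, hL1⟩ := Lk.lift' hfam hpK hp'K hL (D := NSet H θ ℬ μ₀ y) (by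
    intro q hq
    by_contra hcon
    push Not at hcon
    exact hc'.2 q hq ⟨TopC_comp _ hp'K q hq, hcon⟩)
  obtain ⟨η₀, hη₀μ, hη₀y, hst⟩ := hN.2.2
  have hp'₁K : p'₁ ∈ TopC o U θ := hN.1
  obtain ⟨q, hq, ⟨η, hη1, hη2, hcη, hcy, hS⟩, hL2⟩ := Lk.lift hfam hpK hp'₁K hL1
    (D := {q | ∃ η, η₀ ≤ η ∧ η < y ∧ Clean η q ∧ Clean y q ∧
      Sep H θ ℬ (rst q (Iic η)) (rst q (Iic y))}) (by
    intro q₀ hq₀
    obtain ⟨q₁, hq₁, _, hcq₁⟩ := clean_dense H y q₀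
    have hq₁K : q₁ ∈ TopC o U θ := TopC_comp _ hpK q₁ (hq₁.trans hq₀)
    have hnN : q₁ ∉ NSet H θ ℬ μ₀ y := hc.2 q₁ (hq₁.trans hq₀)
    have hns : ¬ NStem H θ ℬ μ₀ y (rst q₁ (Iic y)) := fun h => hnN ⟨hq₁K, hcq₁, h⟩
    unfold NStem at hns
    push Not at hns
    obtain ⟨w', hw', η, hη1, hη2, hcw, hSw⟩ := hns η₀ hη₀μ hη₀y
    obtain ⟨q₂, hq₂, hrs, _, _, hcl⟩ := graft H hw'
    refine ⟨q₂, hq₂.trans hq₁, η, hη1, hη2, clean_of_rst hη2.le (hcl hcq₁) (hrs ▸ hcw),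
      hcl hcq₁, ?_⟩
    have e : rst q₂ (Iic η) = rst w' (Iic η) := by rw [← hrs, rst_rst_Iic hη2.le]
    rw [e, hrs]
    exact hSw)
  have hqK : q ∈ TopC o U θ := TopC_comp _ hpK q hq
  have hμη : μ₀ ≤ η := hη₀μ.trans hη1
  have hηθ : η < θ := hη2.trans hyθ
  obtain ⟨A, hA, b, hb, h1, h2⟩ := hS
  have hbr := hfam.reg b hb
  obtain ⟨p'₂, hp'₂, ⟨hc2η, hc2y⟩, hL3⟩ := Lk.lift' hfam hqK hp'₁K hL2
    (D := {r | Clean η r ∧ Clean y r}) (fun q _ => clean2_dense H η y q)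
  have hp'₂K := TopC_comp _ hp'₁K p'₂ hp'₂
  obtain ⟨p'₃, hp'₃, hg3, hL4⟩ := Lk.lift' hfam hqK hp'₂K hL3
    (D := {r | Good H θ b (rst r (Iic η))}) (fun q _ => good_dense hbr hηθ q)
  have hp'₃K := TopC_comp _ hp'₂K p'₃ hp'₃
  obtain ⟨p'₄, hp'₄, hg4, hL5⟩ := Lk.lift' hfam hqK hp'₃K hL4
    (D := {r | Good H θ b (rst r (Iic y))}) (fun q _ => good_dense hbr hyθ q)
  have hp'₄K := TopC_comp _ hp'₃K p'₄ hp'₄
  have hle4 : p'₄ ≤ p'₁ := hp'₄.trans (hp'₃.trans hp'₂)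
  have hc4η : Clean η p'₄ := hc2η.mono (hp'₄.trans hp'₃)
  have hc4y : Clean y p'₄ := hc2y.mono (hp'₄.trans hp'₃)
  have hg4η : Good H θ b (rst p'₄ (Iic η)) :=
    Good.mono hbr (below_rst_Iic hηθ) (rs_mono hp'₄ (hc2η.mono hp'₃)) hg3
  have hqp₁ : q ≤ p₁ := hq.trans hp
  have hp'₄p₁ : p'₄ ≤ p₁ := hle4.trans (hp'₁.trans hp')
  have hΔη := hΔ q p'₄ hqp₁ hp'₄p₁ η hμη hηθ hcη hc4η hL5
  have hΔy := hΔ q p'₄ hqp₁ hp'₄p₁ y (hμη.trans hη2.le) hyθ hcy hc4y hL5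
  have bη : ∀ r : Cnd o U, Below θ (rst r (Iic η)) := fun r => below_rst_Iic hηθ
  have by' : ∀ r : Cnd o U, Below θ (rst r (Iic y)) := fun r => below_rst_Iic hyθ
  obtain ⟨A', hA', h3⟩ := hg4η
  obtain ⟨A'', hA'', h4⟩ := hg4
  rcases h3 with h3 | h3
  · rcases h4 with h4 | h4
    · exact hΔy (Sep.symm hfam (sep_of hfam (by' _) (by' _) hb h4 h2))
    · have hsep : Sep H θ ℬ (rst p'₄ (Iic η)) (rst p'₄ (Iic y)) :=
        sep_of hfam (bη _) (by' _) hb h3 h4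
      have hle : rst p'₄ (Iic y) ≤ rst p'₁ (Iic y) := rs_mono hle4 hN.2.1
      refine hst (rst p'₄ (Iic y)) hle η hη1 hη2 hc4η.rst ?_
      rw [rst_rst_Iic hη2.le]
      exact hsep
  · exact hΔη (sep_of hfam (bη _) (bη _) hb h1 h3)

/-- the bad set -/
def Bad (H : IsCoherent κ o U) (θ : Ordinal.{u}) (ℬ : Set (Set (Cnd o U)))
    (μ₀ : Ordinal.{u}) (p₁ : Cnd o U) (A₂ : Set Ordinal.{u}) (hA₂ : Big o U θ A₂)
    (y : Ordinal.{u}) : Prop :=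
  μ₀ < y ∧ y < θ ∧ ∃ (u u' : Cnd o U) (E : Set Ordinal.{u}) (hE : Big o U y E)
    (A : Set Ordinal.{u}) (hA : Big o U θ A), Below y u ∧ Below y u' ∧ ¬ Sep H θ ℬ u u' ∧
      cat H θ u A₂ hA₂ ≤ p₁ ∧ cat H θ u' A₂ hA₂ ≤ p₁ ∧
      cat H θ (cat H y u E hE) A hA ∈ ch H θ ℬ μ₀ y ∧
      cat H θ (cat H y u' E hE) A hA ∈ ch H θ ℬ μ₀ y ∧
      ∃ b ∈ ℬ, cat H θ (cat H y u E hE) A hA ∈ b ∧
        cat H θ (cat H y u' E hE) A hA ∈ nega (TopC o U θ) b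

/-- the heart of the argument -/
theorem bad_core (hfam : IsFam (TopC o U θ) ℬ) {p p' q q' c c' : Cnd o U}
    (hp : p ∈ TopC o U θ) (hp' : p' ∈ TopC o U θ) (hq : q ≤ p) (hq' : q' ≤ p')
    (hL : Lk ℬ q q') (hy : μ₀ < y) {Y : Set Ordinal.{u}} (hyq : y ∈ q.dom)
    (hmin : ∀ z ∈ Y, z < y → ∀ r r' : Cnd o U, r ≤ p → r' ≤ p' → Lk ℬ r r' →
      z ∉ r.dom ∧ z ∉ r'.dom)
    (h2 : ∀ r ≤ p, y ∈ r.dom → ∃ s ≤ r, s ≤ c ∨ ∃ z ∈ s.dom, z ∈ Y ∧ z < y)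
    (h2' : ∀ r ≤ p', y ∈ r.dom → ∃ s ≤ r, s ≤ c' ∨ ∃ z ∈ s.dom, z ∈ Y ∧ z < y)
    {b : Set (Cnd o U)} (hb : b ∈ ℬ) (hcb : c ∈ b) (hcc : c ∈ ch H θ ℬ μ₀ y)
    (hcb' : c' ∈ nega (TopC o U θ) b)
    (hI : ∀ r r' : Cnd o U, r ≤ p → r' ≤ p' → Lk ℬ r r' → r ∈ ch H θ ℬ μ₀ y →
      r' ∉ nega (TopC o U θ) (ch H θ ℬ μ₀ y)) : False := by
  have hqK := TopC_comp _ hp q hq
  have hq'K := TopC_comp _ hp' q' hq'
  obtain ⟨r, hr, hrD, hL1⟩ := Lk.lift hfam hqK hq'K hL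
    (D := {s | s ≤ c ∨ ∃ z ∈ s.dom, z ∈ Y ∧ z < y})
    (fun q₁ hq₁ => h2 q₁ (hq₁.trans hq) (hq₁.1 hyq))
  have hrK := TopC_comp _ hqK r hr
  rcases hrD with hrc | ⟨z, hz, hzY, hzy⟩
  swap
  · exact (hmin z hzY hzy r q' (hr.trans hq) hq' hL1).1 hz
  have hrb : r ∈ b := (hfam.reg b hb).down _ hcb _ hrc
  have hrch : r ∈ ch H θ ℬ μ₀ y := ch_reg.down _ hcc _ hrc
  obtain ⟨r', hr', hcr', hL2⟩ := Lk.lift' hfam hrK hq'K hL1 (D := {s | Clean y s})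
    (fun q₁ _ => by
      obtain ⟨s, hs, _, hsc⟩ := clean_dense H y q₁
      exact ⟨s, hs, hsc⟩)
  have hr'K := TopC_comp _ hq'K r' hr'
  have hyr' : y ∈ r'.dom := by
    by_contra hcon
    exact hI r r' (hr.trans hq) (hr'.trans hq') hL2 hrch
      (NSet_neg_ch (NSet_of_not_mem hy hr'K hcr' hcon))
  obtain ⟨s', hs', hsD, hL3⟩ := Lk.lift' hfam hrK hr'K hL2
    (D := {s | s ≤ c' ∨ ∃ z ∈ s.dom, z ∈ Y ∧ z < y})
    (fun q₁ hq₁ => h2' q₁ (hq₁.trans (hr'.trans hq')) (hq₁.1 hyr'))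
  rcases hsD with hsc | ⟨z, hz, hzY, hzy⟩
  swap
  · exact (hmin z hzY hzy r s' (hr.trans hq) (hs'.trans (hr'.trans hq')) hL3).2 hz
  exact not_lk_of hb hrb ((nega_reg TopC_comp (hfam.reg b hb).down).down _ hcb' _ hsc) hL3

/-- the empty condition -/
def emp (o : Ordinal.{u} → Ordinal.{u}) (U : Ordinal.{u} → Ordinal.{u} → Ultrafilter Ordinal.{u}) :
    Cnd o U := ⟨∅, fun _ => ∅, fun _ => empty_subset _, fun _ _ => rfl, by simp⟩

theorem bad_null (hfam : IsFam (TopC o U θ) ℬ) (hp₁ : p₁ ∈ TopC o U θ)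
    (hΔ : Delta H θ ℬ μ₀ p₁) (hμ₀ : μ₀ < θ) {A₂ : Set Ordinal.{u}} {hA₂ : Big o U θ A₂} :
    Big o U θ {y | ¬ Bad H θ ℬ μ₀ p₁ A₂ hA₂ y} := by
  intro γ hγ
  by_contra hcon
  have hN := H.normal θ γ hγ
  have hBad : {y | Bad H θ ℬ μ₀ p₁ A₂ hA₂ y} ∈ U θ γ := by
    have := um_not hcon
    refine um_mono this fun y hy => ?_
    by_contra h
    exact hy h
  have hex : ∀ y : Ordinal.{u}, ∃ (u u' : Cnd o U) (E : Set Ordinal.{u}) (hE : Big o U y E)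
      (A : Set Ordinal.{u}) (hA : Big o U θ A), Bad H θ ℬ μ₀ p₁ A₂ hA₂ y →
      Below y u ∧ Below y u' ∧ ¬ Sep H θ ℬ u u' ∧
      cat H θ u A₂ hA₂ ≤ p₁ ∧ cat H θ u' A₂ hA₂ ≤ p₁ ∧
      cat H θ (cat H y u E hE) A hA ∈ ch H θ ℬ μ₀ y ∧
      cat H θ (cat H y u' E hE) A hA ∈ ch H θ ℬ μ₀ y ∧
      ∃ b ∈ ℬ, cat H θ (cat H y u E hE) A hA ∈ b ∧
        cat H θ (cat H y u' E hE) A hA ∈ nega (TopC o U θ) b := by
    intro y
    by_cases h : Bad H θ ℬ μ₀ p₁ A₂ hA₂ y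
    · obtain ⟨_, _, u, u', E, hE, A, hA, h'⟩ := h
      exact ⟨u, u', E, hE, A, hA, fun _ => h'⟩
    · exact ⟨emp o U, emp o U, univ, Big.univ, univ, Big.univ, fun h' => absurd h' h⟩
  choose u u' E hE A' hA' hprop using hex
  obtain ⟨v, hvb, hv⟩ := press_stem hN (f := u) (um_mono hBad fun y hy => (hprop y hy).1)
  obtain ⟨v', hvb', hv'⟩ := press_stem hN (f := u') (um_mono hBad fun y hy => (hprop y hy).2.1)
  set Y : Set Ordinal.{u} := {y | Bad H θ ℬ μ₀ p₁ A₂ hA₂ y} ∩ ({y | u y = v} ∩ {y | u' y = v'})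
    with hY
  have hYU : Y ∈ U θ γ := um_inter hBad (um_inter hv hv')
  have hpos := theta_pos hN
  obtain ⟨m₁, hm₁, hm₁b⟩ := hvb.bound hpos
  obtain ⟨m₂, hm₂, hm₂b⟩ := hvb'.bound hpos
  set m := max μ₀ (max m₁ m₂) with hm
  have hmθ : m < θ := max_lt hμ₀ (max_lt hm₁ hm₂)
  have hvm : ∀ α ∈ v.dom, α ≤ m := fun α hα =>
    (hm₁b α hα).trans ((le_max_left _ _).trans (le_max_right _ _))
  have hvm' : ∀ α ∈ v'.dom, α ≤ m := fun α hα =>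
    (hm₂b α hα).trans ((le_max_right _ _).trans (le_max_right _ _))
  -- facts for y in Y
  have hfact : ∀ y ∈ Y, ¬ Sep H θ ℬ v v' ∧ cat H θ v A₂ hA₂ ≤ p₁ ∧ cat H θ v' A₂ hA₂ ≤ p₁ ∧
      cat H θ (cat H y v (E y) (hE y)) (A' y) (hA' y) ∈ ch H θ ℬ μ₀ y ∧
      cat H θ (cat H y v' (E y) (hE y)) (A' y) (hA' y) ∈ ch H θ ℬ μ₀ y ∧
      ∃ b ∈ ℬ, cat H θ (cat H y v (E y) (hE y)) (A' y) (hA' y) ∈ b ∧
        cat H θ (cat H y v' (E y) (hE y)) (A' y) (hA' y) ∈ nega (TopC o U θ) b := by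
    rintro y ⟨hy1, hy2, hy3⟩
    have h := hprop y hy1
    have e1 : u y = v := hy2
    have e2 : u' y = v' := hy3
    simp only [e1, e2] at h
    exact h.2.2
  obtain ⟨A₁, hA₁, Y', hY'Y, hY'U, hY'm, _, hmain⟩ := glue H hγ hmθ hYU E hE A' hA'
  obtain ⟨h1, h2⟩ := hmain v hvm
  obtain ⟨h1', h2'⟩ := hmain v' hvm'
  obtain ⟨y₀, hy₀⟩ := um_ne hYU
  obtain ⟨hns, hvp, hvp', _⟩ := hfact y₀ hy₀
  have hA₃ : Big o U θ (A₁ ∩ A₂) := hA₁.inter hA₂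
  set p := cat H θ v (A₁ ∩ A₂) hA₃ with hp
  set p' := cat H θ v' (A₁ ∩ A₂) hA₃ with hp'
  have hpK : p ∈ TopC o U θ := cat_top hvb
  have hp'K : p' ∈ TopC o U θ := cat_top hvb'
  have hp1 : p ≤ cat H θ v A₁ hA₁ := cat_le le_rfl hvb fun x hx => hx.1
  have hp1' : p' ≤ cat H θ v' A₁ hA₁ := cat_le le_rfl hvb' fun x hx => hx.1
  have hpp₁ : p ≤ p₁ := le_trans (cat_le le_rfl hvb fun x hx => hx.2) hvp
  have hp'p₁ : p' ≤ p₁ := le_trans (cat_le le_rfl hvb' fun x hx => hx.2) hvp'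
  have hL : Lk ℬ p p' := lk_of_not_sep hvb' hns
  -- the least point of Y'
  have hne : ∃ y, y ∈ Y' ∧ ∃ q q' : Cnd o U, q ≤ p ∧ q' ≤ p' ∧ Lk ℬ q q' ∧
      (y ∈ q.dom ∨ y ∈ q'.dom) := by
    obtain ⟨q, hq, ⟨y, hyq, hyY⟩, hLq⟩ := Lk.lift hfam hpK hp'K hL
      (D := {r | ∃ y ∈ r.dom, y ∈ Y'}) (fun q hq => h1 q (hq.trans hp1))
    exact ⟨y, hyY, q, p', hq, le_rfl, hLq, Or.inl hyq⟩
  obtain ⟨y, ⟨hyY, q, q', hq, hq', hLq, hyqq⟩, hymin⟩ :=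
    WellFounded.has_min (wellFounded_lt (α := Ordinal.{u}))
      {y | y ∈ Y' ∧ ∃ q q' : Cnd o U, q ≤ p ∧ q' ≤ p' ∧ Lk ℬ q q' ∧
      (y ∈ q.dom ∨ y ∈ q'.dom)} hne
  have hmin : ∀ z ∈ Y', z < y → ∀ r r' : Cnd o U, r ≤ p → r' ≤ p' → Lk ℬ r r' →
      z ∉ r.dom ∧ z ∉ r'.dom := by
    intro z hz hzy r r' hr hr' hLr
    constructor
    · intro h
      exact hymin z ⟨hz, r, r', hr, hr', hLr, Or.inl h⟩ hzy
    · intro h
      exact hymin z ⟨hz, r, r', hr, hr', hLr, Or.inr h⟩ hzy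
  obtain ⟨_, _, _, hch, hch', b, hb, hbc, hbc'⟩ := hfact y (hY'Y hyY)
  have hμy : μ₀ < y := lt_of_le_of_lt (le_max_left _ _) (hY'm y hyY).1
  have hyθ : y < θ := (hY'm y hyY).2
  rcases hyqq with hyq | hyq
  · exact bad_core hfam hpK hp'K hq hq' hLq hμy hyq hmin
      (fun r hr hyr => h2 r (hr.trans hp1) y hyY hyr)
      (fun r hr hyr => h2' r (hr.trans hp1') y hyY hyr) hb hbc hch hbc'
      (fun r r' hr hr' hLr hrc => ch_in hfam hp₁ hΔ hyθ (hr.trans hpp₁) (hr'.trans hp'p₁) hLr hrc)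
  · have hqK := TopC_comp _ hpK q hq
    refine bad_core hfam hp'K hpK hq' hq (Lk.symm hfam hqK hLq) hμy hyq
      (fun z hz hzy r r' hr hr' hLr => ?_)
      (fun r hr hyr => h2' r (hr.trans hp1') y hyY hyr)
      (fun r hr hyr => h2 r (hr.trans hp1) y hyY hyr) (hfam.neg b hb) hbc' hch'
      (le_nega_nega (hfam.reg b hb) hbc)
      (fun r r' hr hr' hLr hrc => ch_in hfam hp₁ hΔ hyθ (hr.trans hp'p₁) (hr'.trans hpp₁) hLr hrc)
    exact (hmin z hz hzy r' r hr' hr (Lk.symm hfam (TopC_comp _ hp'K r hr) hLr)).symm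

/-- an extension of `q`, cut at a bound of the points of `q` below `z` -/
theorem cut_le {q r : Cnd o U} {z η : Ordinal.{u}} (hr : r ≤ q) (hz : z ∈ q.dom) (hηz : η < z)
    (hb : ∀ α ∈ q.dom, α < z → α ≤ η) {E : Set Ordinal.{u}} {hE : Big o U z E}
    (hEq : E ⊆ q.S z) : cat H z (rst r (Iic η)) E hE ≤ rst q (Iic z) := by
  refine ⟨?_, ?_⟩
  · intro α hα
    rw [mem_rst] at hα
    rw [mem_cat, mem_rst]
    rcases (show α ≤ z from hα.2).eq_or_lt with h | h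
    · exact Or.inl h
    · exact Or.inr ⟨hr.1 hα.1, hb α hα.1 h⟩
  · intro α hα
    rw [mem_cat, mem_rst] at hα
    rcases hα with rfl | ⟨hαr, hαη⟩
    · refine ⟨α, mem_rst.2 ⟨hz, mem_Iic.2 le_rfl⟩, le_rfl, fun _ _ h => h, ?_, Or.inl rfl⟩
      rw [cat_S_top, rst_S (show α ∈ Iic α from mem_Iic.2 le_rfl)]
      exact fun x hx => hEq hx.1
    · have hαη' : α ≤ η := hαη
      have hαz : α < z := lt_of_le_of_lt hαη' hηz
      obtain ⟨β, hβ, hαβ, hmin, hS, hor⟩ := hr.2 α hαr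
      have hβz : β ≤ z := hmin z hz hαz.le
      refine ⟨β, mem_rst.2 ⟨hβ, hβz⟩, hαβ, fun γ hγ => hmin γ (mem_rst.1 hγ).1, ?_, ?_⟩
      · rw [cat_S hαz.ne, rst_S hαη, rst_S (show β ∈ Iic z from hβz)]
        exact hS
      · rw [rst_S (show β ∈ Iic z from hβz)]
        exact hor

theorem points_bound {q : Cnd o U} {z μ : Ordinal.{u}} (h : μ < z) :
    ∃ η < z, μ ≤ η ∧ ∀ α ∈ q.dom, α < z → α ≤ η := by
  obtain ⟨η, hη, hb⟩ := Below.bound (lt_of_le_of_lt zero_le h) (below_rst (q := q) (z := z))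
  exact ⟨max μ η, max_lt h hη, le_max_left _ _, fun α hα hαz =>
    (hb α (mem_rst.2 ⟨hα, hαz⟩)).trans (le_max_right _ _)⟩

/-- (II) -/
theorem below_sep (hfam : IsFam (TopC o U θ) ℬ) {𝒟 : Set (Set (Cnd o U))}
    (hfam' : IsFam (TopC o U θ) 𝒟) (hch : ∀ y, μ₀ < y → y < θ → ch H θ ℬ μ₀ y ∈ 𝒟)
    (hμ₀ : μ₀ < θ) {w₁ : Cnd o U} (hw₁ : ∀ α ∈ w₁.dom, α ≤ μ₀)
    {A₂ : Set Ordinal.{u}} {hA₂ : Big o U θ A₂} (hA₂μ : A₂ ⊆ Ioi μ₀)
    {A₃ : Set Ordinal.{u}} {hA₃ : Big o U θ A₃} (hA₃₂ : A₃ ⊆ A₂)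
    (hbad : ∀ y ∈ A₃, ¬ Bad H θ ℬ μ₀ (cat H θ w₁ A₂ hA₂) A₂ hA₂ y)
    (hbase : ∀ p p' : Cnd o U, p ≤ cat H θ w₁ A₃ hA₃ → p' ≤ cat H θ w₁ A₃ hA₃ → Lk 𝒟 p p' →
      Clean μ₀ p → Clean μ₀ p' → ¬ Sep H θ ℬ (rst p (Iic μ₀)) (rst p' (Iic μ₀))) :
    ∀ η, μ₀ ≤ η → η < θ → ∀ p p' : Cnd o U, p ≤ cat H θ w₁ A₃ hA₃ → p' ≤ cat H θ w₁ A₃ hA₃ →
      Lk 𝒟 p p' → Clean η p → Clean η p' → ¬ Sep H θ ℬ (rst p (Iic η)) (rst p' (Iic η)) := by
  have hbw₁ : Below θ w₁ := fun α hα => (hw₁ α hα).trans_lt hμ₀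
  have hp₃K : cat H θ w₁ A₃ hA₃ ∈ TopC o U θ := cat_top hbw₁
  have hp₃₁ : cat H θ w₁ A₃ hA₃ ≤ cat H θ w₁ A₂ hA₂ := cat_le le_rfl hbw₁ hA₃₂
  intro y
  induction y using WellFoundedLT.induction with
  | ind y ih =>
    intro hμy hyθ p p' hp hp' hL hc hc' hS
    rcases hμy.eq_or_lt with h | hμy
    · subst h
      exact hbase p p' hp hp' hL hc hc' hS
    have by' : ∀ r : Cnd o U, Below θ (rst r (Iic y)) := fun r => below_rst_Iic hyθ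
    have hpK := TopC_comp _ hp₃K p hp
    have hp'K := TopC_comp _ hp₃K p' hp'
    obtain ⟨q, hq, hqD, hL1⟩ := Lk.lift hfam' hpK hp'K hL
      (D := NSet H θ ℬ μ₀ y ∪ ch H θ ℬ μ₀ y) (fun q hq => ch_or_N (TopC_comp _ hpK q hq))
    have hqK := TopC_comp _ hpK q hq
    obtain ⟨q', hq', hqD', hL2⟩ := Lk.lift' hfam' hqK hp'K hL1
      (D := NSet H θ ℬ μ₀ y ∪ ch H θ ℬ μ₀ y) (fun q hq => ch_or_N (TopC_comp _ hp'K q hq))
    have hq'K := TopC_comp _ hp'K q' hq'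
    have hcq : Clean y q := hc.mono hq
    have hcq' : Clean y q' := hc'.mono hq'
    have hS2 : Sep H θ ℬ (rst q (Iic y)) (rst q' (Iic y)) :=
      hS.mono hfam (by' _) (by' _) (rs_mono hq hc) (rs_mono hq' hc')
    have hq3 : q ≤ cat H θ w₁ A₃ hA₃ := hq.trans hp
    have hq3' : q' ≤ cat H θ w₁ A₃ hA₃ := hq'.trans hp'
    obtain ⟨A, hA, b, hb, h1, h2⟩ := hS2
    have hbr := hfam.reg b hb
    have hnr := nega_reg TopC_comp hbr.down (K := TopC o U θ)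
    rcases hqD with hqN | hqc <;> rcases hqD' with hqN' | hqc'
    · -- both in N
      obtain ⟨η₁, hη₁μ, hη₁y, hst1⟩ := hqN.2.2
      obtain ⟨η₂, hη₂μ, hη₂y, hst2⟩ := hqN'.2.2
      set η := max η₁ η₂ with hη
      have hηy : η < y := max_lt hη₁y hη₂y
      have hμη : μ₀ ≤ η := hη₁μ.trans (le_max_left _ _)
      have hηθ : η < θ := hηy.trans hyθ
      have bη : ∀ r : Cnd o U, Below θ (rst r (Iic η)) := fun r => below_rst_Iic hηθ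
      obtain ⟨r₁, hr₁, hcr₁, hL3⟩ := Lk.lift hfam' hqK hq'K hL2 (D := {s | Clean η s})
        (fun q₁ _ => by
          obtain ⟨s, hs, _, hsc⟩ := clean_dense H η q₁
          exact ⟨s, hs, hsc⟩)
      have hr₁K := TopC_comp _ hqK r₁ hr₁
      obtain ⟨r₁', hr₁', hcr₁', hL4⟩ := Lk.lift' hfam' hr₁K hq'K hL3 (D := {s | Clean η s})
        (fun q₁ _ => by
          obtain ⟨s, hs, _, hsc⟩ := clean_dense H η q₁
          exact ⟨s, hs, hsc⟩)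
      have hr₁K' := TopC_comp _ hq'K r₁' hr₁'
      obtain ⟨r, hr, hg, hL5⟩ := Lk.lift hfam' hr₁K hr₁K' hL4
        (D := {r | Good H θ b (rst r (Iic η))}) (fun q _ => good_dense hbr hηθ q)
      have hrK := TopC_comp _ hr₁K r hr
      obtain ⟨r', hr', hg', hL6⟩ := Lk.lift' hfam' hrK hr₁K' hL5
        (D := {r | Good H θ b (rst r (Iic η))}) (fun q _ => good_dense hbr hηθ q)
      have hcr : Clean η r := Clean.mono hr hcr₁
      have hcr' : Clean η r' := Clean.mono hr' hcr₁'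
      have hle : rst r (Iic y) ≤ rst q (Iic y) := rs_mono (hr.trans hr₁) hcq
      have hle' : rst r' (Iic y) ≤ rst q' (Iic y) := rs_mono (hr'.trans hr₁') hcq'
      have hns : ¬ Sep H θ ℬ (rst r (Iic η)) (rst r (Iic y)) := by
        have := hst1 _ hle η (le_max_left _ _) hηy hcr.rst
        rwa [rst_rst_Iic hηy.le] at this
      have hns' : ¬ Sep H θ ℬ (rst r' (Iic η)) (rst r' (Iic y)) := by
        have := hst2 _ hle' η (le_max_right _ _) hηy hcr'.rst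
        rwa [rst_rst_Iic hηy.le] at this
      have h3 : cat H θ (rst r (Iic y)) A hA ∈ b :=
        hbr.down _ h1 _ (cat_le hle (by' _) fun x hx => hx)
      have h4 : cat H θ (rst r' (Iic y)) A hA ∈ nega (TopC o U θ) b :=
        hnr.down _ h2 _ (cat_le hle' (by' _) fun x hx => hx)
      obtain ⟨B, hB, hg⟩ := hg
      obtain ⟨B', hB', hg'⟩ := hg'
      rcases hg with hg | hg
      · rcases hg' with hg' | hg'
        · exact hns' (sep_of hfam (bη _) (by' _) hb hg' h4)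
        · exact ih η hηy hμη hηθ r r' ((hr.trans hr₁).trans hq3) ((hr'.trans hr₁').trans hq3')
            hL6 hcr hcr' (sep_of hfam (bη _) (bη _) hb hg hg')
      · exact hns (Sep.symm hfam (sep_of hfam (by' _) (bη _) hb h3 hg))
    · -- mixed
      exact not_lk_of (K := TopC o U θ) (hch y hμy hyθ) hqc' (NSet_neg_ch hqN)
        (Lk.symm hfam' hqK hL2)
    · exact not_lk_of (K := TopC o U θ) (hch y hμy hyθ) hqc (NSet_neg_ch hqN') hL2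
    · -- both in ch
      have hyq : y ∈ q.dom := ch_mem hμy hqc hcq
      have hyq' : y ∈ q'.dom := ch_mem hμy hqc' hcq'
      obtain ⟨η₁, hη₁y, hμη₁, hb₁⟩ := points_bound (q := q) hμy
      obtain ⟨η₂, hη₂y, hμη₂, hb₂⟩ := points_bound (q := q') hμy
      set η := max η₁ η₂ with hη
      have hηy : η < y := max_lt hη₁y hη₂y
      have hμη : μ₀ ≤ η := hμη₁.trans (le_max_left _ _)
      have hηθ : η < θ := hηy.trans hyθ
      have hbq : ∀ α ∈ q.dom, α < y → α ≤ η := fun α hα h => (hb₁ α hα h).trans (le_max_left _ _)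
      have hbq' : ∀ α ∈ q'.dom, α < y → α ≤ η :=
        fun α hα h => (hb₂ α hα h).trans (le_max_right _ _)
      obtain ⟨r, hr, hcr, hL3⟩ := Lk.lift hfam' hqK hq'K hL2 (D := {s | Clean η s})
        (fun q₁ _ => by
          obtain ⟨s, hs, _, hsc⟩ := clean_dense H η q₁
          exact ⟨s, hs, hsc⟩)
      have hrK := TopC_comp _ hqK r hr
      obtain ⟨r', hr', hcr', hL4⟩ := Lk.lift' hfam' hrK hq'K hL3 (D := {s | Clean η s})
        (fun q₁ _ => by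
          obtain ⟨s, hs, _, hsc⟩ := clean_dense H η q₁
          exact ⟨s, hs, hsc⟩)
      have hr3 : r ≤ cat H θ w₁ A₃ hA₃ := hr.trans hq3
      have hr3' : r' ≤ cat H θ w₁ A₃ hA₃ := hr'.trans hq3'
      have hnsep := ih η hηy hμη hηθ r r' hr3 hr3' hL4 hcr hcr'
      have hE : Big o U y (q.S y ∩ q'.S y) := (q.big hyq).inter (q'.big hyq')
      have hAy : Big o U θ (A ∩ Ioi y) := hA.inter (Big.tail H hyθ)
      have hcut : cat H y (rst r (Iic η)) (q.S y ∩ q'.S y) hE ≤ rst q (Iic y) :=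
        cut_le hr hyq hηy hbq inter_subset_left
      have hcut' : cat H y (rst r' (Iic η)) (q.S y ∩ q'.S y) hE ≤ rst q' (Iic y) :=
        cut_le hr' hyq' hηy hbq' inter_subset_right
      have hpts : ∀ s : Cnd o U, ∀ α ∈ (cat H y (rst s (Iic η)) (q.S y ∩ q'.S y) hE).dom,
          α ≤ y := by
        intro s α hα
        rw [mem_cat, mem_rst] at hα
        rcases hα with rfl | hα
        · exact le_rfl
        · exact (show α ≤ η from hα.2).trans hηy.le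
      have hcatcl : ∀ s : Cnd o U, Clean y (cat H θ (cat H y (rst s (Iic η))
          (q.S y ∩ q'.S y) hE) (A ∩ Ioi y) hAy) := fun s =>
        cat_clean (hpts s) inter_subset_right
      have hbel : ∀ s : Cnd o U, Below θ (cat H y (rst s (Iic η)) (q.S y ∩ q'.S y) hE) :=
        fun s α hα => (hpts s α hα).trans_lt hyθ
      have hup : ∀ s : Cnd o U, s ≤ cat H θ w₁ A₃ hA₃ →
          cat H θ (rst s (Iic η)) A₂ hA₂ ≤ cat H θ w₁ A₂ hA₂ := by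
        intro s hs
        have hs2 := hs.trans hp₃₁
        refine le_cat_intro (μ := μ₀) (cat_top (below_rst_Iic hηθ)) ?_ hw₁ hμ₀ ?_
        · have e : rst (cat H θ (rst s (Iic η)) A₂ hA₂) (Iic μ₀) = rst s (Iic μ₀) := by
            rw [← rst_rst_Iic hμη, rst_cat rst_Iic_le hηθ, rst_rst_Iic hμη]
          rw [e]
          exact le_cat_rst hs2 hw₁ hμ₀ hA₂μ
        · intro α hα hμα
          rw [mem_cat] at hα
          rcases hα with rfl | hα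
          · rw [cat_S_top]
            exact ⟨fun x hx => hx.1, Or.inl rfl⟩
          · have hα' := mem_rst.1 hα
            obtain ⟨h5, h6, h7⟩ := le_cat_gt hs2 hw₁ hα'.1 hμα
            have hαθ : α ≠ θ := ((show α ≤ η from hα'.2).trans_lt hηθ).ne
            rw [cat_S hαθ, rst_S hα'.2]
            exact ⟨h6, h7⟩
      have hyA₃ : y ∈ A₃ := by
        rcases (le_cat_gt hq3 hw₁ hyq hμy).2.2 with h | h
        · exact absurd h hyθ.ne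
        · exact h
      refine hbad y hyA₃ ⟨hμy, hyθ, rst r (Iic η), rst r' (Iic η), q.S y ∩ q'.S y, hE,
        A ∩ Ioi y, hAy, below_rst_Iic hηy, below_rst_Iic hηy, hnsep, hup r hr3, hup r' hr3',
        ?_, ?_, b, hb, ?_, ?_⟩
      · refine ch_local hqc hcq (cat_top (hbel r)) (hcatcl r) ?_
        rw [rst_cat (hpts r) hyθ]
        exact hcut
      · refine ch_local hqc' hcq' (cat_top (hbel r')) (hcatcl r') ?_
        rw [rst_cat (hpts r') hyθ]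
        exact hcut'
      · exact hbr.down _ h1 _ (cat_le hcut (by' _) inter_subset_left)
      · exact hnr.down _ h2 _ (cat_le hcut' (by' _) inter_subset_left)

/-- (II), final form: linked pairs for the family of names are not separated by `ℬ` -/
theorem final_sep (hfam : IsFam (TopC o U θ) ℬ) {𝒟 : Set (Set (Cnd o U))}
    (hfam' : IsFam (TopC o U θ) 𝒟) (hμ₀ : μ₀ < θ) {p₃ : Cnd o U} (hp₃ : p₃ ∈ TopC o U θ)
    (hmain : ∀ η, μ₀ ≤ η → η < θ → ∀ p p' : Cnd o U, p ≤ p₃ → p' ≤ p₃ →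
      Lk 𝒟 p p' → Clean η p → Clean η p' → ¬ Sep H θ ℬ (rst p (Iic η)) (rst p' (Iic η)))
    {p p' : Cnd o U} (hp : p ≤ p₃) (hp' : p' ≤ p₃) (hL : Lk 𝒟 p p') {b : Set (Cnd o U)}
    (hb : b ∈ ℬ) (hpb : p ∈ b) : p' ∉ nega (TopC o U θ) b := by
  intro hpb'
  have hpK := TopC_comp _ hp₃ p hp
  have hp'K := TopC_comp _ hp₃ p' hp'
  obtain ⟨η₁, hη₁θ, hμη₁, hb₁⟩ := points_bound (q := p) hμ₀
  obtain ⟨η₂, hη₂θ, hμη₂, hb₂⟩ := points_bound (q := p') hμ₀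
  set η := max η₁ η₂ with hη
  have hηθ : η < θ := max_lt hη₁θ hη₂θ
  have hμη : μ₀ ≤ η := hμη₁.trans (le_max_left _ _)
  have hbq : ∀ α ∈ p.dom, α < θ → α ≤ η := fun α hα h => (hb₁ α hα h).trans (le_max_left _ _)
  have hbq' : ∀ α ∈ p'.dom, α < θ → α ≤ η :=
    fun α hα h => (hb₂ α hα h).trans (le_max_right _ _)
  obtain ⟨r, hr, hcr, hL3⟩ := Lk.lift hfam' hpK hp'K hL (D := {s | Clean η s})
    (fun q₁ _ => by
      obtain ⟨s, hs, _, hsc⟩ := clean_dense H η q₁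
      exact ⟨s, hs, hsc⟩)
  have hrK := TopC_comp _ hpK r hr
  obtain ⟨r', hr', hcr', hL4⟩ := Lk.lift' hfam' hrK hp'K hL3 (D := {s | Clean η s})
    (fun q₁ _ => by
      obtain ⟨s, hs, _, hsc⟩ := clean_dense H η q₁
      exact ⟨s, hs, hsc⟩)
  refine hmain η hμη hηθ r r' (hr.trans hp) (hr'.trans hp') hL4 hcr hcr' ?_
  have hbr := hfam.reg b hb
  have hnr := nega_reg TopC_comp hbr.down (K := TopC o U θ)
  have e : rst p (Iic θ) = p := rst_self (X := Iic θ) hpK.2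
  have e' : rst p' (Iic θ) = p' := rst_self (X := Iic θ) hp'K.2
  have hcut : cat H θ (rst r (Iic η)) (p.S θ) (p.big hpK.1) ≤ p := by
    have := cut_le (H := H) hr hpK.1 hηθ hbq (hE := p.big hpK.1) (fun x hx => hx)
    rwa [e] at this
  have hcut' : cat H θ (rst r' (Iic η)) (p'.S θ) (p'.big hp'K.1) ≤ p' := by
    have := cut_le (H := H) hr' hp'K.1 hηθ hbq' (hE := p'.big hp'K.1) (fun x hx => hx)
    rwa [e'] at this
  exact sep_of hfam (below_rst_Iic hηθ) (below_rst_Iic hηθ) hb (hbr.down _ hpb _ hcut)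
    (hnr.down _ hpb' _ hcut')

end MagRad
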